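import Pool.Agent.H14.NP.Combine
import Pool.Agent.H14.NP.TwoInfty

/-!
# Spaces containing the `ℓ_p^n` uniformly, and type: definitions
-/

set_option autoImplicit false

namespace Pool.Agent.H42.KC

open Filter Topology
open scoped ENNReal

/-- `E` contains the spaces `ℓ_p^n` uniformly (no complementation is assumed): for some `C` and
every `n` there are `z_1, …, z_n` in `E` with `‖a‖_p ≤ ‖∑ a_i z_i‖ ≤ C ‖a‖_p` for all scalars. -/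
def ContainsEll (𝕜 : Type*) [RCLike 𝕜] (E : Type*) [NormedAddCommGroup E] [NormedSpace 𝕜 E]
    (p : ℝ≥0∞) : Prop :=
  ∃ C : ℝ, ∀ n : ℕ, ∃ z : Fin n → E, ∀ a : PiLp p (fun _ : Fin n => 𝕜),
    ‖a‖ ≤ ‖∑ i, a i • z i‖ ∧ ‖∑ i, a i • z i‖ ≤ C * ‖a‖

/-- `X` has (Rademacher) type `s`: for some `T` and all finite families in `X` the average over all
choices of signs of `‖∑ ± x_i‖` is at most `T (∑ ‖x_i‖^s)^(1/s)`. -/
def HasType (X : Type*) [NormedAddCommGroup X] (s : ℝ) : Prop :=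
  ∃ T : ℝ, ∀ (n : ℕ) (x : Fin n → X),
    (∑ ε : Fin n → Bool, ‖∑ i, (if ε i then x i else -x i)‖) / 2 ^ n ≤
      T * (∑ i, ‖x i‖ ^ s) ^ (1 / s)

variable {𝕜 : Type*} [RCLike 𝕜] {E : Type*} [NormedAddCommGroup E] [NormedSpace 𝕜 E]

/-- `F` can be placed isomorphically in arbitrarily late finite pieces. -/
def TailSub (P : ℕ → E →L[𝕜] E) (C : ℝ) (F : Type*) [NormedAddCommGroup F] [NormedSpace 𝕜 F] :
    Prop :=
  ∀ k : ℕ, ∃ (l : ℕ) (i : F →L[𝕜] E), k ≤ l ∧ (∀ x, P l (i x) = i x) ∧ (∀ x, P k (i x) = 0) ∧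
    (∀ x, ‖x‖ ≤ ‖i x‖) ∧ ‖i‖ ≤ C

theorem TailSub.comp {P : ℕ → E →L[𝕜] E} {C : ℝ} {F F' : Type*} [NormedAddCommGroup F]
    [NormedSpace 𝕜 F] [NormedAddCommGroup F'] [NormedSpace 𝕜 F'] (h : TailSub P C F)
    (R : F' →L[𝕜] F) (hR : ∀ x, ‖x‖ ≤ ‖R x‖) {D : ℝ} (hRD : ‖R‖ ≤ D) : TailSub P (C * D) F' := by
  intro k
  obtain ⟨l, i, hkl, h1, h2, h3, h4⟩ := h k
  refine ⟨l, i.comp R, hkl, fun x => h1 _, fun x => h2 _, fun x => (hR x).trans (h3 _), ?_⟩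
  exact (ContinuousLinearMap.opNorm_comp_le _ _).trans (mul_le_mul h4 hRD (norm_nonneg _)
    ((norm_nonneg _).trans h4))

theorem TailSub.mono {P : ℕ → E →L[𝕜] E} {C C' : ℝ} (hCC : C ≤ C') {F : Type*}
    [NormedAddCommGroup F] [NormedSpace 𝕜 F] (h : TailSub P C F) : TailSub P C' F := by
  intro k
  obtain ⟨l, i, hkl, h1, h2, h3, h4⟩ := h k
  exact ⟨l, i, hkl, h1, h2, h3, h4.trans hCC⟩

end Pool.Agent.H42.KC
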