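import Pool.Agent.H42.KC.Interp

/-!
# The bound for arbitrary coefficients
-/

set_option autoImplicit false

namespace Pool.Agent.H42.KC

open Finset

variable {Ω ι : Type*} [Fintype Ω] [Nonempty Ω] [Fintype ι]
variable {ξ : ι → Ω → ℝ} {M K₀ : ℝ} {k : ℕ}

/-- The small part of the coefficients. -/
noncomputable def lowp (a : ι → ℝ) (h : ℝ) : ι → ℝ := fun i => if |a i| ≤ h then a i else 0

/-- The dyadic part of the coefficients. -/
noncomputable def midp (a : ι → ℝ) (h : ℝ) : ι → ℝ := fun i =>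
  if h / 2 < |a i| ∧ |a i| ≤ h then a i else 0

omit [Fintype ι] in
lemma lowp_eq (a : ι → ℝ) {h : ℝ} (hh : 0 < h) : lowp a h = midp a h + lowp a (h / 2) := by
  funext i
  simp only [lowp, midp, Pi.add_apply]
  by_cases h1 : |a i| ≤ h / 2
  · have h2 : |a i| ≤ h := by linarith
    rw [if_pos h2, if_neg (fun h3 => absurd h3.1 (not_lt.2 h1)), if_pos h1, zero_add]
  · rw [if_neg h1, add_zero]
    by_cases h2 : |a i| ≤ h
    · rw [if_pos h2, if_pos ⟨not_le.1 h1, h2⟩]
    · rw [if_neg h2, if_neg (fun h3 => h2 h3.2)]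

omit [Fintype ι] in
lemma abs_midp_le (a : ι → ℝ) (h : ℝ) (i : ι) : |midp a h i| ≤ |a i| := by
  unfold midp
  split_ifs
  · exact le_rfl
  · rw [abs_zero]; exact abs_nonneg _

omit [Nonempty Ω] in
lemma lq_single_le (hS : Sys ξ M K₀ k) {q : ℝ} (hq : 0 < q) (i : ι) :
    lq q (ξ i) = ((Fintype.card Ω : ℝ) * M⁻¹) ^ (1 / q) := by
  unfold lq
  congr 1
  rw [← hS.norm i]
  exact sum_congr rfl fun c _ => hS.val i c q hq

/-- The bound. -/
theorem Sys.bound (hS : Sys ξ M K₀ k) {q : ℝ} (hq : 2 < q) (hqk : q < 2 * k) (r : ℕ)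
    (hr : Fintype.card ι ≤ 2 ^ r) (a : ι → ℝ) :
    lq q (cb ξ a) ≤ (2 * K₀ * r + 1) * ((Fintype.card Ω : ℝ) ^ (1 / q) *
      ((M⁻¹ * ∑ i, |a i| ^ q) ^ (1 / q) + (M⁻¹ * ∑ i, a i ^ 2) ^ ((1 : ℝ) / 2))) := by
  classical
  have hM := hS.M_pos
  have hK := hS.K_one
  have hq0 : 0 < q := by linarith
  set N : ℝ := (Fintype.card Ω : ℝ) with hN
  have hN0 : 0 < N := by rw [hN]; exact_mod_cast Fintype.card_pos
  set A : ℝ := M⁻¹ * ∑ i, |a i| ^ q with hA
  set B : ℝ := M⁻¹ * ∑ i, a i ^ 2 with hB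
  have hA0 : 0 ≤ A := mul_nonneg (by positivity) (sum_abs_nonneg q a)
  have hB0 : 0 ≤ B := mul_nonneg (by positivity) (sum_nonneg fun i _ => sq_nonneg _)
  rcases isEmpty_or_nonempty ι with hι | hι
  · have h0 : cb ξ a = 0 := by
      funext c
      simp [cb]
    rw [h0]
    have h1 : lq q (0 : Ω → ℝ) = 0 := by
      have := lq_smul hq0 0 (0 : Ω → ℝ)
      simpa using this
    rw [h1]
    positivity
  obtain ⟨i₀, -, hi₀⟩ := exists_max_image (univ : Finset ι) (fun i => |a i|) univ_nonempty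
  set h : ℝ := |a i₀| with hh
  have hmax : ∀ i, |a i| ≤ h := fun i => hi₀ i (mem_univ _)
  rcases (abs_nonneg (a i₀)).eq_or_lt with h0 | hpos
  · have h0' : cb ξ a = 0 := by
      funext c
      have : ∀ i, a i = 0 := fun i => abs_eq_zero.1 (le_antisymm ((hmax i).trans h0.ge)
        (abs_nonneg _))
      simp [cb, this]
    rw [h0']
    have h1 : lq q (0 : Ω → ℝ) = 0 := by
      have := lq_smul hq0 0 (0 : Ω → ℝ)
      simpa using this
    rw [h1]
    positivity
  · set D : ℝ := N ^ (1 / q) * (A ^ (1 / q) + B ^ ((1 : ℝ) / 2)) with hD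
    have hD0 : 0 ≤ D := by positivity
    have hmid : ∀ t : ℝ, 0 < t → lq q (cb ξ (midp a t)) ≤ 2 * K₀ * D := by
      intro t ht
      have h1 := hS.flat hq hqk (midp a t) t ht (fun i => by
        unfold midp
        by_cases h2 : t / 2 < |a i| ∧ |a i| ≤ t
        · right; rw [if_pos h2]; exact h2
        · left; rw [if_neg h2])
      refine h1.trans ?_
      have h2 : ∑ i, |midp a t i| ^ q ≤ ∑ i, |a i| ^ q := sum_le_sum fun i _ =>
        Real.rpow_le_rpow (abs_nonneg _) (abs_midp_le a t i) hq0.le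
      have h3 : ∑ i, midp a t i ^ 2 ≤ ∑ i, a i ^ 2 := sum_le_sum fun i _ => by
        rw [← sq_abs, ← sq_abs (a i)]
        exact pow_le_pow_left₀ (abs_nonneg _) (abs_midp_le a t i) 2
      have h4 : 0 ≤ ∑ i, |midp a t i| ^ q := sum_abs_nonneg q _
      have h5 : 0 ≤ ∑ i, midp a t i ^ 2 := sum_nonneg fun i _ => sq_nonneg _
      rw [hD, ← mul_assoc (2 * K₀), hA, hB]
      gcongr
    have hdec : ∀ n : ℕ, lq q (cb ξ a) ≤ 2 * K₀ * D * n + lq q (cb ξ (lowp a (h / 2 ^ n))) := by
      intro n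
      induction n with
      | zero =>
        have : lowp a (h / 2 ^ 0) = a := by
          funext i
          simp only [lowp, pow_zero, div_one]
          rw [if_pos (hmax i)]
        rw [this]
        simp
      | succ n ih =>
        have ht : 0 < h / 2 ^ n := by positivity
        have h1 : h / 2 ^ (n + 1) = h / 2 ^ n / 2 := by rw [pow_succ]; field_simp
        have h2 := lowp_eq a ht
        rw [← h1] at h2
        have h3 : lq q (cb ξ (lowp a (h / 2 ^ n))) ≤ 2 * K₀ * D +
            lq q (cb ξ (lowp a (h / 2 ^ (n + 1)))) := by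
          rw [h2, cb_add]
          exact (lq_add (by linarith) _ _).trans (add_le_add (hmid _ ht) le_rfl)
        push_cast
        linarith
    have hlast : lq q (cb ξ (lowp a (h / 2 ^ r))) ≤ D := by
      have h1 : cb ξ (lowp a (h / 2 ^ r)) = ∑ i, (lowp a (h / 2 ^ r) i) • ξ i := by
        funext c
        simp only [cb, Finset.sum_apply, Pi.smul_apply, smul_eq_mul]
      rw [h1]
      refine (lq_sum (by linarith) _ _).trans ?_
      have h2 : ∀ i, lq q ((lowp a (h / 2 ^ r) i) • ξ i) ≤ h / 2 ^ r * (N * M⁻¹) ^ (1 / q) := by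
        intro i
        rw [lq_smul hq0, lq_single_le hS hq0 i]
        refine mul_le_mul_of_nonneg_right ?_ (by positivity)
        unfold lowp
        split_ifs with h3
        · exact h3
        · rw [abs_zero]; positivity
      refine (sum_le_sum fun i _ => h2 i).trans ?_
      rw [sum_const, card_univ, nsmul_eq_mul]
      have h3 : (Fintype.card ι : ℝ) ≤ 2 ^ r := by exact_mod_cast hr
      have h4 : h ≤ (∑ i, |a i| ^ q) ^ (1 / q) := by
        have h5 : h ^ q ≤ ∑ i, |a i| ^ q :=
          single_le_sum (f := fun i => |a i| ^ q) (fun i _ => Real.rpow_nonneg (abs_nonneg _) _)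
            (mem_univ i₀)
        calc h = (h ^ q) ^ (1 / q) := by
              rw [← Real.rpow_mul hpos.le, mul_one_div_cancel hq0.ne', Real.rpow_one]
          _ ≤ _ := Real.rpow_le_rpow (by positivity) h5 (by positivity)
      calc (Fintype.card ι : ℝ) * (h / 2 ^ r * (N * M⁻¹) ^ (1 / q))
          ≤ 2 ^ r * (h / 2 ^ r * (N * M⁻¹) ^ (1 / q)) := by gcongr
        _ = h * (N * M⁻¹) ^ (1 / q) := by field_simp
        _ ≤ (∑ i, |a i| ^ q) ^ (1 / q) * (N * M⁻¹) ^ (1 / q) := by gcongr
        _ = N ^ (1 / q) * A ^ (1 / q) := by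
            rw [hA, Real.mul_rpow hN0.le (by positivity), Real.mul_rpow (by positivity)
              (sum_abs_nonneg q a)]
            ring
        _ ≤ D := by
            rw [hD]
            have : 0 ≤ B ^ ((1 : ℝ) / 2) := by positivity
            gcongr
            linarith
    have := hdec r
    calc lq q (cb ξ a) ≤ 2 * K₀ * D * r + D := by linarith
      _ = _ := by ring

end Pool.Agent.H42.KC
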