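import Mathlib

/-!
# Interpolation between the moments of order `2` and `2k`
-/

set_option autoImplicit false

namespace Pool.Agent.H42.KC

open Finset

variable {Ω ι : Type*} [Fintype Ω] [Nonempty Ω] [Fintype ι]

/-- The (unnormalised) `ℓ_q` norm. -/
noncomputable def lq (q : ℝ) (f : Ω → ℝ) : ℝ := (∑ c, |f c| ^ q) ^ (1 / q)

lemma sum_abs_nonneg (q : ℝ) (f : ι → ℝ) : 0 ≤ ∑ c, |f c| ^ q :=
  sum_nonneg fun _ _ => Real.rpow_nonneg (abs_nonneg _) _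

lemma lq_nonneg (q : ℝ) (f : ι → ℝ) : 0 ≤ lq q f := Real.rpow_nonneg (sum_abs_nonneg q f) _

lemma lq_add {q : ℝ} (hq : 1 ≤ q) (f g : ι → ℝ) : lq q (f + g) ≤ lq q f + lq q g :=
  Real.Lp_add_le univ f g hq

lemma lq_mono {q : ℝ} (hq : 0 < q) {f g : ι → ℝ} (h : ∀ c, |f c| ≤ |g c|) : lq q f ≤ lq q g :=
  Real.rpow_le_rpow (sum_abs_nonneg q f) (sum_le_sum fun c _ =>
    Real.rpow_le_rpow (abs_nonneg _) (h c) hq.le) (by positivity)

lemma lq_smul {q : ℝ} (hq : 0 < q) (t : ℝ) (f : ι → ℝ) : lq q (t • f) = |t| * lq q f := by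
  unfold lq
  have h1 : ∑ c, |(t • f) c| ^ q = |t| ^ q * ∑ c, |f c| ^ q := by
    rw [mul_sum]
    refine sum_congr rfl fun c _ => ?_
    rw [Pi.smul_apply, smul_eq_mul, abs_mul, Real.mul_rpow (abs_nonneg _) (abs_nonneg _)]
  rw [h1, Real.mul_rpow (by positivity) (sum_abs_nonneg q f), ← Real.rpow_mul (abs_nonneg _),
    mul_one_div_cancel hq.ne', Real.rpow_one]

lemma lq_sum {q : ℝ} (hq : 1 ≤ q) {κ : Type*} (s : Finset κ) (f : κ → ι → ℝ) :
    lq q (∑ j ∈ s, f j) ≤ ∑ j ∈ s, lq q (f j) := by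
  classical
  induction s using Finset.induction_on with
  | empty =>
    simp only [sum_empty]
    unfold lq
    have h1 : ∑ c : ι, |(0 : ι → ℝ) c| ^ q = 0 := sum_eq_zero fun c _ => by
      rw [Pi.zero_apply, abs_zero, Real.zero_rpow (by linarith)]
    rw [h1, Real.zero_rpow (by positivity)]
  | insert j s hj ih =>
    rw [sum_insert hj, sum_insert hj]
    exact (lq_add hq _ _).trans (by gcongr)

/-- A system of functions with the moment bounds of independent peaky functions. -/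
structure Sys (ξ : ι → Ω → ℝ) (M K₀ : ℝ) (k : ℕ) : Prop where
  M_pos : 0 < M
  K_one : 1 ≤ K₀
  two : ∀ a : ι → ℝ, ∑ c, (∑ i, a i * ξ i c) ^ 2 = (Fintype.card Ω : ℝ) * (M⁻¹ * ∑ i, a i ^ 2)
  even : ∀ a : ι → ℝ, ∑ c, (∑ i, a i * ξ i c) ^ (2 * k) ≤
    (Fintype.card Ω : ℝ) * (K₀ * (M⁻¹ * ∑ i, a i ^ (2 * k) + (M⁻¹ * ∑ i, a i ^ 2) ^ k))
  val : ∀ i c (s : ℝ), 0 < s → |ξ i c| ^ s = ξ i c ^ 2
  norm : ∀ i, ∑ c, ξ i c ^ 2 = (Fintype.card Ω : ℝ) * M⁻¹

/-- The combination with coefficients `a`. -/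
def cb (ξ : ι → Ω → ℝ) (a : ι → ℝ) : Ω → ℝ := fun c => ∑ i, a i * ξ i c

omit [Fintype Ω] [Nonempty Ω] in
lemma cb_add (ξ : ι → Ω → ℝ) (a b : ι → ℝ) : cb ξ (a + b) = cb ξ a + cb ξ b := by
  funext c
  simp only [cb, Pi.add_apply, add_mul, sum_add_distrib]

omit [Nonempty Ω] in
/-- Hölder's inequality between the moments. -/
lemma holder_moments (X : Ω → ℝ) (k : ℕ) (q lam : ℝ) (hl0 : 0 < lam) (hl1 : lam < 1)
    (hq : 2 * (1 - lam) + 2 * k * lam = q) :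
    ∑ c, |X c| ^ q ≤ (∑ c, X c ^ 2) ^ (1 - lam) * (∑ c, X c ^ (2 * k)) ^ lam := by
  have h1 : 0 < 1 - lam := by linarith
  have hconj : (1 / (1 - lam)).HolderConjugate (1 / lam) := by
    rw [Real.holderConjugate_iff]
    constructor
    · rw [lt_div_iff₀ h1]; linarith
    · rw [one_div, one_div, inv_inv, inv_inv]; ring
  have h2 := Real.inner_le_Lp_mul_Lq univ (fun c => (X c ^ 2) ^ (1 - lam))
    (fun c => (X c ^ (2 * k)) ^ lam) hconj
  have he : ∀ c, X c ^ (2 * k) = (X c ^ 2) ^ k := fun c => pow_mul _ _ _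
  have hp : ∀ c, 0 ≤ X c ^ (2 * k) := fun c => by rw [he]; positivity
  have h3 : ∀ c, |(X c ^ 2) ^ (1 - lam)| ^ (1 / (1 - lam)) = X c ^ 2 := by
    intro c
    rw [abs_of_nonneg (by positivity), ← Real.rpow_mul (by positivity),
      mul_one_div_cancel h1.ne', Real.rpow_one]
  have h4 : ∀ c, |(X c ^ (2 * k)) ^ lam| ^ (1 / lam) = X c ^ (2 * k) := by
    intro c
    rw [abs_of_nonneg (Real.rpow_nonneg (hp c) _), ← Real.rpow_mul (hp c),
      mul_one_div_cancel hl0.ne', Real.rpow_one]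
  simp only [h3, h4] at h2
  simp only [one_div, inv_inv] at h2
  refine le_trans (le_of_eq ?_) h2
  refine sum_congr rfl fun c _ => ?_
  have h5 : X c ^ 2 = |X c| ^ (2 : ℝ) := by
    rw [← sq_abs]; exact (Real.rpow_natCast _ 2).symm
  have h6 : X c ^ (2 * k) = |X c| ^ (2 * k : ℝ) := by
    rw [he, ← sq_abs, ← pow_mul]
    have := Real.rpow_natCast |X c| (2 * k)
    rw [← this]
    push_cast
    rfl
  rw [h5, h6, ← Real.rpow_mul (abs_nonneg _), ← Real.rpow_mul (abs_nonneg _),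
    ← Real.rpow_add_of_nonneg (abs_nonneg _) (by positivity) (by positivity), hq]

variable {ξ : ι → Ω → ℝ} {M K₀ : ℝ} {k : ℕ}

/-- Flat coefficients. -/
lemma Sys.flat (hS : Sys ξ M K₀ k) {q : ℝ} (hq : 2 < q) (hqk : q < 2 * k) (a : ι → ℝ) (h : ℝ)
    (hh : 0 < h) (ha : ∀ i, a i = 0 ∨ (h / 2 < |a i| ∧ |a i| ≤ h)) :
    lq q (cb ξ a) ≤ 2 * K₀ * (Fintype.card Ω : ℝ) ^ (1 / q) *
      ((M⁻¹ * ∑ i, |a i| ^ q) ^ (1 / q) + (M⁻¹ * ∑ i, a i ^ 2) ^ ((1 : ℝ) / 2)) := by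
  classical
  have hM := hS.M_pos
  have hK := hS.K_one
  set N : ℝ := (Fintype.card Ω : ℝ) with hN
  have hN0 : 0 < N := by rw [hN]; exact_mod_cast Fintype.card_pos
  have hk1 : (2 : ℝ) < 2 * k := hq.trans hqk
  set lam : ℝ := (q - 2) / (2 * k - 2) with hlam
  have hl0 : 0 < lam := div_pos (by linarith) (by linarith)
  have hl1 : lam < 1 := by rw [hlam, div_lt_one (by linarith)]; linarith
  have hlq : 2 * (1 - lam) + 2 * k * lam = q := by
    have : lam * (2 * k - 2) = q - 2 := by rw [hlam]; exact div_mul_cancel₀ _ (by linarith)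
    linarith
  set s : Finset ι := univ.filter fun i => a i ≠ 0 with hs
  set n₀ : ℝ := (s.card : ℝ) with hn
  have hn0 : 0 ≤ n₀ := Nat.cast_nonneg _
  have hsum : ∀ (f : ℝ → ℝ), f 0 = 0 → ∑ i, f (a i) = ∑ i ∈ s, f (a i) := by
    intro f hf
    rw [hs, sum_filter]
    refine sum_congr rfl fun i _ => ?_
    split_ifs with h1
    · rfl
    · rw [not_not.1 h1, hf]
  have hsi : ∀ i ∈ s, h / 2 < |a i| ∧ |a i| ≤ h := fun i hi =>
    (ha i).resolve_left (mem_filter.1 hi).2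
  have hub : ∀ (f : ℝ → ℝ), f 0 = 0 → ∀ B, (∀ i ∈ s, f (a i) ≤ B) → ∑ i, f (a i) ≤ n₀ * B := by
    intro f hf B hB
    rw [hsum f hf]
    refine (sum_le_sum hB).trans (le_of_eq ?_)
    rw [sum_const, nsmul_eq_mul]
  have hlb : ∀ (f : ℝ → ℝ), f 0 = 0 → ∀ B, (∀ i ∈ s, B ≤ f (a i)) → n₀ * B ≤ ∑ i, f (a i) := by
    intro f hf B hB
    rw [hsum f hf]
    refine le_trans (le_of_eq ?_) (sum_le_sum hB)
    rw [sum_const, nsmul_eq_mul]
  have hk0 : k ≠ 0 := by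
    rintro rfl
    norm_num at hk1
  have b1 : ∑ i, a i ^ 2 ≤ n₀ * h ^ 2 := hub (fun t => t ^ 2) (by norm_num) _ fun i hi => by
    rw [← sq_abs]; exact pow_le_pow_left₀ (abs_nonneg _) (hsi i hi).2 2
  have b2 : ∑ i, a i ^ (2 * k) ≤ n₀ * h ^ (2 * k) := hub (fun t => t ^ (2 * k))
    (zero_pow (by omega)) _ fun i hi => by
      rw [pow_mul, ← sq_abs, ← pow_mul]; exact pow_le_pow_left₀ (abs_nonneg _) (hsi i hi).2 _
  have b3 : n₀ * (h / 2) ^ q ≤ ∑ i, |a i| ^ q := hlb (fun t => |t| ^ q)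
    (by rw [abs_zero]; exact Real.zero_rpow (by linarith)) _ fun i hi =>
      Real.rpow_le_rpow (by positivity) (hsi i hi).1.le (by linarith)
  have b4 : n₀ * (h / 2) ^ 2 ≤ ∑ i, a i ^ 2 := hlb (fun t => t ^ 2) (by norm_num) _ fun i hi => by
    rw [← sq_abs (a i)]; exact pow_le_pow_left₀ (by positivity) (hsi i hi).1.le 2
  set u : ℝ := M⁻¹ * n₀ with hu
  have hu0 : 0 ≤ u := by positivity
  have c1 : ∑ c, (cb ξ a c) ^ 2 ≤ N * (u * h ^ 2) := by
    have := hS.two a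
    unfold cb
    rw [this]
    calc N * (M⁻¹ * ∑ i, a i ^ 2) ≤ N * (M⁻¹ * (n₀ * h ^ 2)) := by gcongr
      _ = _ := by rw [hu]; ring
  have c2 : ∑ c, (cb ξ a c) ^ (2 * k) ≤ N * (K₀ * (u * h ^ (2 * k) + (u * h ^ 2) ^ k)) := by
    refine (hS.even a).trans ?_
    have h0 : 0 ≤ ∑ i, a i ^ 2 := sum_nonneg fun i _ => sq_nonneg _
    calc N * (K₀ * (M⁻¹ * ∑ i, a i ^ (2 * k) + (M⁻¹ * ∑ i, a i ^ 2) ^ k))
        ≤ N * (K₀ * (M⁻¹ * (n₀ * h ^ (2 * k)) + (M⁻¹ * (n₀ * h ^ 2)) ^ k)) := by gcongr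
      _ = _ := by rw [hu]; ring
  have hX2 : 0 ≤ ∑ c, (cb ξ a c) ^ 2 := sum_nonneg fun c _ => sq_nonneg _
  have hX2k : 0 ≤ ∑ c, (cb ξ a c) ^ (2 * k) := sum_nonneg fun c _ => by rw [pow_mul]; positivity
  have d1 := holder_moments (cb ξ a) k q lam hl0 hl1 hlq
  have d2 : ∑ c, |cb ξ a c| ^ q ≤ N * K₀ * (u * h ^ q + (u * h ^ 2) ^ (q / 2)) := by
    refine d1.trans ?_
    have e1 : (u * h ^ 2) ^ (1 - lam) * (u * h ^ (2 * k)) ^ lam = u * h ^ q := by
      have f1 : h ^ 2 = h ^ (2 : ℝ) := (Real.rpow_natCast h 2).symm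
      have f2 : h ^ (2 * k) = h ^ (2 * k : ℝ) := by
        have := Real.rpow_natCast h (2 * k)
        rw [← this]; push_cast; rfl
      rw [Real.mul_rpow hu0 (by positivity), Real.mul_rpow hu0 (by positivity), f1, f2,
        ← Real.rpow_mul hh.le, ← Real.rpow_mul hh.le]
      have f3 : u ^ (1 - lam) * u ^ lam = u := by
        rw [← Real.rpow_add_of_nonneg hu0 (by linarith) hl0.le]
        have : 1 - lam + lam = 1 := by ring
        rw [this, Real.rpow_one]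
      have f4 : h ^ (2 * (1 - lam)) * h ^ (2 * k * lam) = h ^ q := by
        rw [← Real.rpow_add hh, hlq]
      calc u ^ (1 - lam) * h ^ (2 * (1 - lam)) * (u ^ lam * h ^ (2 * k * lam))
          = (u ^ (1 - lam) * u ^ lam) * (h ^ (2 * (1 - lam)) * h ^ (2 * k * lam)) := by ring
        _ = _ := by rw [f3, f4]
    have e2 : (u * h ^ 2) ^ (1 - lam) * ((u * h ^ 2) ^ k) ^ lam = (u * h ^ 2) ^ (q / 2) := by
      have f0 : 0 ≤ u * h ^ 2 := by positivity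
      have f1 : ((u * h ^ 2) ^ k) ^ lam = (u * h ^ 2) ^ ((k : ℝ) * lam) := by
        rw [← Real.rpow_natCast (u * h ^ 2) k, ← Real.rpow_mul f0]
      rw [f1, ← Real.rpow_add_of_nonneg f0 (by linarith) (by positivity)]
      congr 1
      linarith
    have e3 : (u * h ^ (2 * k) + (u * h ^ 2) ^ k) ^ lam ≤
        (u * h ^ (2 * k)) ^ lam + ((u * h ^ 2) ^ k) ^ lam :=
      Real.rpow_add_le_add_rpow (by positivity) (by positivity) hl0.le hl1.le
    have e4 : K₀ ^ lam ≤ K₀ := by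
      calc K₀ ^ lam ≤ K₀ ^ (1 : ℝ) := Real.rpow_le_rpow_of_exponent_le hK hl1.le
        _ = K₀ := Real.rpow_one _
    have e5 : N ^ (1 - lam) * N ^ lam = N := by
      rw [← Real.rpow_add hN0]
      have : 1 - lam + lam = 1 := by ring
      rw [this, Real.rpow_one]
    calc (∑ c, (cb ξ a c) ^ 2) ^ (1 - lam) * (∑ c, (cb ξ a c) ^ (2 * k)) ^ lam
        ≤ (N * (u * h ^ 2)) ^ (1 - lam) * (N * (K₀ * (u * h ^ (2 * k) + (u * h ^ 2) ^ k))) ^ lam := by
          gcongr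
      _ = (N ^ (1 - lam) * N ^ lam) * K₀ ^ lam * ((u * h ^ 2) ^ (1 - lam) *
            (u * h ^ (2 * k) + (u * h ^ 2) ^ k) ^ lam) := by
          have g1 : (N * (u * h ^ 2)) ^ (1 - lam) = N ^ (1 - lam) * (u * h ^ 2) ^ (1 - lam) :=
            Real.mul_rpow hN0.le (by positivity)
          have g2 : (N * (K₀ * (u * h ^ (2 * k) + (u * h ^ 2) ^ k))) ^ lam =
              N ^ lam * (K₀ ^ lam * (u * h ^ (2 * k) + (u * h ^ 2) ^ k) ^ lam) := by
            rw [Real.mul_rpow hN0.le (by positivity), Real.mul_rpow (by linarith) (by positivity)]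
          rw [g1, g2]
          ring
      _ ≤ N * K₀ * ((u * h ^ 2) ^ (1 - lam) *
            ((u * h ^ (2 * k)) ^ lam + ((u * h ^ 2) ^ k) ^ lam)) := by
          rw [e5]
          gcongr
      _ = _ := by rw [mul_add, e1, e2]
  have d3 : u * h ^ q + (u * h ^ 2) ^ (q / 2) ≤
      2 ^ q * (M⁻¹ * ∑ i, |a i| ^ q + (M⁻¹ * ∑ i, a i ^ 2) ^ (q / 2)) := by
    have e1 : h ^ q = 2 ^ q * (h / 2) ^ q := by
      rw [← Real.mul_rpow (by norm_num) (by positivity)]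
      congr 1
      ring
    have e2 : u * h ^ 2 = 4 * (M⁻¹ * (n₀ * (h / 2) ^ 2)) := by rw [hu]; ring
    have e3 : (4 : ℝ) ^ (q / 2) = 2 ^ q := by
      rw [show (4 : ℝ) = 2 ^ (2 : ℝ) by norm_num, ← Real.rpow_mul (by norm_num)]
      congr 1
      ring
    have e4 : (u * h ^ 2) ^ (q / 2) ≤ 2 ^ q * (M⁻¹ * ∑ i, a i ^ 2) ^ (q / 2) := by
      rw [e2, Real.mul_rpow (by norm_num) (by positivity), e3]
      gcongr
    have e5 : u * h ^ q ≤ 2 ^ q * (M⁻¹ * ∑ i, |a i| ^ q) := by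
      rw [e1]
      calc u * (2 ^ q * (h / 2) ^ q) = 2 ^ q * (M⁻¹ * (n₀ * (h / 2) ^ q)) := by rw [hu]; ring
        _ ≤ _ := by gcongr
    rw [mul_add]
    exact add_le_add e5 e4
  set A : ℝ := M⁻¹ * ∑ i, |a i| ^ q with hA
  set B : ℝ := M⁻¹ * ∑ i, a i ^ 2 with hB
  have hA0 : 0 ≤ A := mul_nonneg (by positivity) (sum_abs_nonneg q a)
  have hB0 : 0 ≤ B := mul_nonneg (by positivity) (sum_nonneg fun i _ => sq_nonneg _)
  have hq0 : 0 < q := by linarith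
  have hq1 : 1 / q ≤ 1 := by rw [div_le_one hq0]; linarith
  unfold lq
  calc (∑ c, |cb ξ a c| ^ q) ^ (1 / q)
      ≤ (N * K₀ * (2 ^ q * (A + B ^ (q / 2)))) ^ (1 / q) := by
        refine Real.rpow_le_rpow (sum_abs_nonneg q _) (d2.trans ?_) (by positivity)
        gcongr
    _ = N ^ (1 / q) * K₀ ^ (1 / q) * (2 * (A + B ^ (q / 2)) ^ (1 / q)) := by
        rw [Real.mul_rpow (by positivity) (by positivity), Real.mul_rpow hN0.le (by linarith),
          Real.mul_rpow (by positivity) (by positivity),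
          ← Real.rpow_mul (x := (2 : ℝ)) (by norm_num), mul_one_div_cancel hq0.ne', Real.rpow_one]
    _ ≤ N ^ (1 / q) * K₀ * (2 * (A ^ (1 / q) + B ^ ((1 : ℝ) / 2))) := by
        have f1 : K₀ ^ (1 / q) ≤ K₀ := by
          calc K₀ ^ (1 / q) ≤ K₀ ^ (1 : ℝ) := Real.rpow_le_rpow_of_exponent_le hK hq1
            _ = K₀ := Real.rpow_one _
        have f2 : (A + B ^ (q / 2)) ^ (1 / q) ≤ A ^ (1 / q) + B ^ ((1 : ℝ) / 2) := by
          refine (Real.rpow_add_le_add_rpow hA0 (by positivity) (by positivity) hq1).trans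
            (le_of_eq ?_)
          rw [← Real.rpow_mul hB0]
          congr 2
          field_simp
        gcongr
    _ = _ := by ring

end Pool.Agent.H42.KC
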