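import Pool.Agent.H14.NP.MixOps
import Pool.Agent.H14.NP.EllOneAux

/-!
# The key relation and the passage from finite index sets to blocks
-/

set_option autoImplicit false

namespace Pool.Agent.H42.KC

open Filter Topology Pool.Agent.H14.NP
open scoped ENNReal

variable {𝕜 : Type*} [RCLike 𝕜] {E : Type*} [NormedAddCommGroup E] [NormedSpace 𝕜 E]

section key

variable {V W : Type*} [AddCommGroup V] [Module 𝕜 V] [AddCommGroup W] [Module 𝕜 W]

/-- The block vectors `α (P e_j) + β e_j`. -/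
noncomputable def yv (r : ℕ) (α : (Cube r → 𝕜) →ₗ[𝕜] V) (β : (JJ r → 𝕜) →ₗ[𝕜] V) (j : JJ r) : V :=
  α (Pf 𝕜 r (Pi.single j 1)) + β (Pi.single j 1)

theorem sum_yv (r : ℕ) (α : (Cube r → 𝕜) →ₗ[𝕜] V) (β : (JJ r → 𝕜) →ₗ[𝕜] V) (a : JJ r → 𝕜) :
    ∑ j, a j • yv r α β j = α (Pf 𝕜 r a) + β a := by
  have h2 := pi_sum (α.comp (Pf 𝕜 r)) a
  have h3 := pi_sum β a
  rw [LinearMap.comp_apply] at h2
  rw [h2, h3, ← Finset.sum_add_distrib]
  exact Finset.sum_congr rfl fun j _ => smul_add _ _ _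

theorem sum_yv_finset (r : ℕ) (α : (Cube r → 𝕜) →ₗ[𝕜] V) (β : (JJ r → 𝕜) →ₗ[𝕜] V)
    (a : JJ r → 𝕜) (s : Finset (JJ r)) : ∑ j ∈ s, a j • yv r α β j =
      α (Pf 𝕜 r (fun j => if j ∈ s then a j else 0)) + β (fun j => if j ∈ s then a j else 0) := by
  rw [← sum_yv]
  simp only [ite_smul, zero_smul]
  rw [Finset.sum_ite_mem, Finset.univ_inter]

/-- The key relation. -/
theorem key_rel (r : ℕ) (α : (Cube r → 𝕜) →ₗ[𝕜] V) (β : (JJ r → 𝕜) →ₗ[𝕜] V)
    (γ : (Cube r → 𝕜) →ₗ[𝕜] W) (A : Finset (JJ r)) (S : V →ₗ[𝕜] W)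
    (hS : ∀ j, S (yv r α β j) = if j ∈ A then γ (Pf 𝕜 r (Pi.single j 1)) else 0)
    (i' : Cube r) : S (β (vf 𝕜 r i')) = γ (Fv 𝕜 r A i') := by
  have h1 : β (vf 𝕜 r i') = ∑ j, vf 𝕜 r i' j • yv r α β j := by
    rw [sum_yv, Pf_vf, map_zero, zero_add]
  rw [h1, map_sum, ← Pf_ind_vf]
  have h2 := pi_sum (γ.comp (Pf 𝕜 r)) (fun j => if j ∈ A then vf 𝕜 r i' j else 0)
  rw [LinearMap.comp_apply] at h2
  rw [h2]
  refine Finset.sum_congr rfl fun j _ => ?_
  rw [map_smul, hS, LinearMap.comp_apply]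
  split_ifs <;> simp

end key

/-- From an unconditional block indexed by a finite set to the form needed for gluing. -/
theorem block_nat (P : ℕ → E →L[𝕜] E) (C K : ℝ) (k l : ℕ) (hkl : k ≤ l)
    (h : ℕ) (hh : 0 < h) {X : Type*} [Fintype X] [DecidableEq X] (φ : X ≃ Fin (2 * h)) (b : X → E)
    (hPl : ∀ x, P l (b x) = b x) (hPk : ∀ x, P k (b x) = 0) (hb0 : ∀ x, b x ≠ 0)
    (hb : ∀ (a : X → 𝕜) (s : Finset X), ‖∑ x ∈ s, a x • b x‖ ≤ C * ‖∑ x, a x • b x‖)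
    (hbT : ∀ A : Finset X, A.card = h → ∀ T : E →L[𝕜] E,
      (∀ x, T (b x) = if x ∈ A then b x else 0) → K ≤ ‖T‖) :
    ∃ (l h : ℕ) (y : ℕ → E), 0 < h ∧ k ≤ l ∧
      (∀ j < 2 * h, P l (y j) = y j ∧ P k (y j) = 0 ∧ y j ≠ 0) ∧
      (∀ (a : ℕ → 𝕜) (r : ℕ), r ≤ 2 * h →
        ‖∑ j ∈ Finset.range r, a j • y j‖ ≤ C * ‖∑ j ∈ Finset.range (2 * h), a j • y j‖) ∧
      (∀ A ⊆ Finset.range (2 * h), A.card = h → ∀ T : E →L[𝕜] E,
        (∀ j < 2 * h, T (y j) = if j ∈ A then y j else 0) → K ≤ ‖T‖) := by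
  classical
  let y : ℕ → E := fun j => if hj : j < 2 * h then b (φ.symm ⟨j, hj⟩) else 0
  have hy : ∀ x, y (φ x) = b x := by
    intro x
    simp only [y, (φ x).2, dif_pos, Fin.eta, Equiv.symm_apply_apply]
  have hy' : ∀ j (hj : j < 2 * h), y j = b (φ.symm ⟨j, hj⟩) := by
    intro j hj
    simp only [y, hj, dif_pos]
  have hsum : ∀ (a : ℕ → 𝕜) (r : ℕ), r ≤ 2 * h → ∑ j ∈ Finset.range r, a j • y j
      = ∑ x ∈ Finset.univ.filter (fun x : X => (φ x : ℕ) < r), a (φ x) • b x := by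
    intro a r hr
    rw [sum_range_eq_sum_filter φ _ r hr]
    exact Finset.sum_congr rfl fun x _ => by rw [hy]
  refine ⟨l, h, y, hh, hkl, ?_, ?_, ?_⟩
  · intro j hj
    rw [hy' j hj]
    exact ⟨hPl _, hPk _, hb0 _⟩
  · intro a r hr
    have e1 := hsum a r hr
    have e2 := hsum a (2 * h) le_rfl
    have e3 : Finset.univ.filter (fun x : X => (φ x : ℕ) < 2 * h) = Finset.univ :=
      Finset.filter_true_of_mem fun x _ => (φ x).2
    rw [e3] at e2
    rw [e1, e2]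
    exact hb (fun x => a (φ x)) _
  · intro A hA hAc T hT
    let A' : Finset X := Finset.univ.filter fun x => (φ x : ℕ) ∈ A
    have hA'c : A'.card = h := by
      rw [← hAc]
      refine Finset.card_bij (fun x _ => (φ x : ℕ)) ?_ ?_ ?_
      · intro x hx
        simpa [A'] using hx
      · intro x _ y _ hxy
        exact φ.injective (Fin.ext hxy)
      · intro j hj
        have hj' : j < 2 * h := by
          have := hA hj
          rwa [Finset.mem_range] at this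
        refine ⟨φ.symm ⟨j, hj'⟩, ?_, ?_⟩
        · simpa [A'] using hj
        · simp
    refine hbT A' hA'c T fun x => ?_
    rw [← hy x, hT _ (φ x).2]
    have : ((φ x : ℕ) ∈ A) ↔ x ∈ A' := by simp [A']
    simp only [this]

end Pool.Agent.H42.KC
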