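import Mathlib

/-!
# `d`-wise independence of the values of polynomials over a finite field
-/

set_option autoImplicit false

namespace Pool.Agent.H42.KC

open Finset Polynomial

variable {F : Type*} [Field F] {ι : Type*}

/-- Value at the point `x i` of the polynomial with coefficients `c`. -/
def ev (d : ℕ) (x : ι → F) (c : Fin d → F) (i : ι) : F := ∑ l, c l * x i ^ (l : ℕ)

lemma ev_add (d : ℕ) (x : ι → F) (c c' : Fin d → F) : ev d x (c + c') = ev d x c + ev d x c' := by
  funext i
  simp only [ev, Pi.add_apply, add_mul, sum_add_distrib]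

/-- Interpolation. -/
lemma exists_ev [DecidableEq ι] (d : ℕ) {x : ι → F} (hx : Function.Injective x) (s : Finset ι) (hs : s.card ≤ d)
    (w : ι → F) : ∃ c : Fin d → F, ∀ i ∈ s, ev d x c i = w i := by
  classical
  have hinj : Set.InjOn x (s : Set ι) := fun a _ b _ h => hx h
  refine ⟨fun l => (Lagrange.interpolate s x w).coeff l, fun i hi => ?_⟩
  have h1 := Lagrange.eval_interpolate_at_node w hinj hi
  rw [← h1]
  rcases Nat.eq_zero_or_pos d with h0 | hpos
  · subst h0
    have : s = ∅ := by rwa [Nat.le_zero, card_eq_zero] at hs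
    rw [this] at hi
    exact absurd hi (notMem_empty _)
  · have hdeg : (Lagrange.interpolate s x w).natDegree < d := by
      rcases eq_or_ne (Lagrange.interpolate s x w) 0 with h0 | h0
      · rw [h0, natDegree_zero]; exact hpos
      · rw [natDegree_lt_iff_degree_lt h0]
        refine (Lagrange.degree_interpolate_lt w hinj).trans_le ?_
        exact_mod_cast hs
    rw [Polynomial.eval_eq_sum_range' hdeg, ev,
      Fin.sum_univ_eq_sum_range (fun l => (Lagrange.interpolate s x w).coeff l * x i ^ l)]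

variable [Fintype F] [Fintype ι] [DecidableEq ι]

/-- `d`-wise independence. -/
theorem sum_ev (d : ℕ) {x : ι → F} (hx : Function.Injective x) (s : Finset ι) (hs : s.card ≤ d)
    (φ : (ι → F) → ℝ) (hφ : ∀ ω ω', (∀ i ∈ s, ω i = ω' i) → φ ω = φ ω') :
    (Fintype.card (ι → F) : ℝ) * ∑ c : Fin d → F, φ (ev d x c) =
      (Fintype.card (Fin d → F) : ℝ) * ∑ ω : ι → F, φ ω := by
  classical
  have h1 : ∀ w : ι → F, ∑ c : Fin d → F, φ (ev d x c) = ∑ c : Fin d → F, φ (ev d x c + w) := by
    intro w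
    obtain ⟨c₀, hc₀⟩ := exists_ev d hx s hs w
    rw [← Equiv.sum_comp (Equiv.addRight c₀)]
    refine sum_congr rfl fun c _ => hφ _ _ fun i hi => ?_
    rw [Equiv.coe_addRight, ev_add, Pi.add_apply, Pi.add_apply, hc₀ i hi]
  calc (Fintype.card (ι → F) : ℝ) * ∑ c : Fin d → F, φ (ev d x c)
      = ∑ w : ι → F, ∑ c : Fin d → F, φ (ev d x c) := by
        rw [sum_const, card_univ, nsmul_eq_mul]
    _ = ∑ w : ι → F, ∑ c : Fin d → F, φ (ev d x c + w) := sum_congr rfl fun w _ => h1 w
    _ = ∑ c : Fin d → F, ∑ w : ι → F, φ (ev d x c + w) := sum_comm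
    _ = ∑ _c : Fin d → F, ∑ w : ι → F, φ w := by
        refine sum_congr rfl fun c _ => ?_
        exact Equiv.sum_comp (Equiv.addLeft (ev d x c)) φ
    _ = _ := by rw [sum_const, card_univ, nsmul_eq_mul]

/-- Moments up to order `d`. -/
theorem sum_ev_pow (d : ℕ) {x : ι → F} (hx : Function.Injective x) (ξ : F → ℝ) (a : ι → ℝ)
    (e : ℕ) (he : e ≤ d) :
    (Fintype.card (ι → F) : ℝ) * ∑ c : Fin d → F, (∑ i, a i * ξ (ev d x c i)) ^ e =
      (Fintype.card (Fin d → F) : ℝ) * ∑ ω : ι → F, (∑ i, a i * ξ (ω i)) ^ e := by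
  classical
  simp only [Fintype.sum_pow]
  rw [sum_comm, mul_sum, sum_comm (s := (univ : Finset (ι → F))), mul_sum]
  refine sum_congr rfl fun p _ => ?_
  refine sum_ev d hx (univ.image p) ((card_image_le).trans (by rw [card_univ, Fintype.card_fin]; exact he))
    (fun ω => ∏ j, a (p j) * ξ (ω (p j))) fun ω ω' h => ?_
  refine prod_congr rfl fun j _ => ?_
  rw [h (p j) (mem_image_of_mem p (mem_univ j))]

end Pool.Agent.H42.KC
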