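import Pool.Agent.H14.NP.Chi
import Pool.Agent.H42.KC.Poly

/-!
# Moments of the peaky functions on the space of polynomials
-/

set_option autoImplicit false

namespace Pool.Agent.H42.KC

open Finset Pool.Agent.H14.NP

set_option linter.unusedSectionVars false

variable {F G H : Type*} [Field F] [Fintype F] [AddCommGroup G] [Fintype G] [DecidableEq G]
  [Fintype H] [Nonempty H] {ι : Type*} [Fintype ι] [DecidableEq ι]

/-- The peaky function of one variable: a sign on a set of measure `1/|G|`. -/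
def pk (e : F ≃ G × Bool × H) (f : F) : ℝ := sg (e f).2.1 * ind0 (e f).1

/-- Splitting of the coordinates. -/
def spl (e : F ≃ G × Bool × H) (ι : Type*) : (ι → F) ≃ ((ι → G) × (ι → Bool)) × (ι → H) where
  toFun ω := ((fun i => (e (ω i)).1, fun i => (e (ω i)).2.1), fun i => (e (ω i)).2.2)
  invFun y := fun i => e.symm (y.1.1 i, y.1.2 i, y.2 i)
  left_inv ω := by
    funext i
    simp
  right_inv y := by
    simp

lemma sum_spl (e : F ≃ G × Bool × H) (ψ : (ι → G) × (ι → Bool) → ℝ) :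
    ∑ ω : ι → F, ψ (spl e ι ω).1 = (Fintype.card (ι → H) : ℝ) * ∑ x, ψ x := by
  rw [Equiv.sum_comp (spl e ι) (fun y => ψ y.1), Fintype.sum_prod_type]
  simp only [sum_const, card_univ, nsmul_eq_mul]
  rw [← mul_sum]

/-- Moments up to order `d` agree with those of the independent functions. -/
theorem moment_eq (e : F ≃ G × Bool × H) (d : ℕ) {x : ι → F} (hx : Function.Injective x)
    (a : ι → ℝ) (k : ℕ) (hk : k ≤ d) :
    (Fintype.card ((ι → G) × (ι → Bool)) : ℝ) *
        ∑ c : Fin d → F, (∑ i, a i * pk e (ev d x c i)) ^ k =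
      (Fintype.card (Fin d → F) : ℝ) * ∑ y : (ι → G) × (ι → Bool), (chi a y) ^ k := by
  have h1 := sum_ev_pow d hx (pk e) a k hk
  have h2 : ∀ ω : ι → F, ∑ i, a i * pk e (ω i) = chi a (spl e ι ω).1 := by
    intro ω
    unfold chi
    refine sum_congr rfl fun i _ => ?_
    simp only [pk, spl, Equiv.coe_fn_mk, RCLike.ofReal_real_eq_id, id_eq]
    ring
  simp only [h2] at h1 ⊢
  rw [sum_spl e (fun y => (chi a y) ^ k)] at h1
  have h3 : (Fintype.card (ι → F) : ℝ) =
      (Fintype.card ((ι → G) × (ι → Bool)) : ℝ) * (Fintype.card (ι → H) : ℝ) := by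
    rw [Fintype.card_congr (spl e ι), Fintype.card_prod]
    push_cast
    rfl
  have h4 : (0 : ℝ) < Fintype.card (ι → H) := by exact_mod_cast Fintype.card_pos
  rw [h3] at h1
  refine mul_left_cancel₀ h4.ne' ?_
  linarith

/-- Second moment. -/
theorem moment_two (e : F ≃ G × Bool × H) (d : ℕ) (hd : 2 ≤ d) {x : ι → F}
    (hx : Function.Injective x) (a : ι → ℝ) :
    ∑ c : Fin d → F, (∑ i, a i * pk e (ev d x c i)) ^ 2 =
      (Fintype.card (Fin d → F) : ℝ) * ((Fintype.card G : ℝ)⁻¹ * ∑ i, a i ^ 2) := by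
  have h1 := moment_eq e d hx a 2 hd
  have h2 := chi_second (𝕜 := ℝ) (G := G) a
  simp only [Real.norm_eq_abs, sq_abs] at h2
  rw [h2] at h1
  have h4 : (0 : ℝ) < Fintype.card ((ι → G) × (ι → Bool)) := by exact_mod_cast Fintype.card_pos
  refine mul_left_cancel₀ h4.ne' ?_
  rw [h1]
  ring

/-- Moment of order `2k`. -/
theorem moment_even (e : F ≃ G × Bool × H) (k : ℕ) (hk : 1 ≤ k) {x : ι → F}
    (hx : Function.Injective x) (a : ι → ℝ) :
    ∑ c : Fin (2 * k) → F, (∑ i, a i * pk e (ev (2 * k) x c i)) ^ (2 * k) ≤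
      (Fintype.card (Fin (2 * k) → F) : ℝ) * (kc (2 * k) * 2 ^ (k * k) *
        ((Fintype.card G : ℝ)⁻¹ * ∑ i, a i ^ (2 * k) +
        ((Fintype.card G : ℝ)⁻¹ * ∑ i, a i ^ 2) ^ k)) := by
  have h1 := moment_eq e (2 * k) hx a (2 * k) le_rfl
  have hk2 : (2 : ℝ) ≤ ((2 * k : ℕ) : ℝ) := by exact_mod_cast (by omega : 2 ≤ 2 * k)
  have h2 := chi_moment (𝕜 := ℝ) (G := G) hk2 a
  have hhalf : ((2 * k : ℕ) : ℝ) / 2 = (k : ℝ) := by push_cast; ring
  rw [hhalf] at h2
  simp only [Real.rpow_natCast, Real.norm_eq_abs, sq_abs] at h2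
  have h3 : ∀ t : ℝ, |t| ^ (2 * k) = t ^ (2 * k) := fun t => by
    rw [pow_mul, sq_abs, ← pow_mul]
  simp only [h3] at h2
  set A : ℝ := (Fintype.card G : ℝ)⁻¹ * ∑ i, a i ^ (2 * k) with hA
  set B : ℝ := (Fintype.card G : ℝ)⁻¹ * ∑ i, a i ^ 2 with hB
  have hA0 : 0 ≤ A := mul_nonneg (by positivity) (sum_nonneg fun i _ => by
    rw [pow_mul]; positivity)
  have hB0 : 0 ≤ B := mul_nonneg (by positivity) (sum_nonneg fun i _ => sq_nonneg _)
  have hkc := kc_pos (((2 * k : ℕ) : ℝ))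
  have h5 : kc ((2 * k : ℕ) : ℝ) * (2 ^ k * A + (2 ^ k * B) ^ k) ≤
      kc (2 * k) * 2 ^ (k * k) * (A + B ^ k) := by
    have h6 : (2 : ℝ) ^ k ≤ 2 ^ (k * k) := pow_le_pow_right₀ (by norm_num) (Nat.le_mul_self k)
    have h7 : ((2 : ℝ) ^ k * B) ^ k = 2 ^ (k * k) * B ^ k := by rw [mul_pow, ← pow_mul]
    rw [h7, mul_assoc]
    have h8 : kc ((2 * k : ℕ) : ℝ) = kc (2 * k) := by push_cast; rfl
    rw [← h8]
    refine mul_le_mul_of_nonneg_left ?_ hkc.le
    have : (2 : ℝ) ^ k * A ≤ 2 ^ (k * k) * A := mul_le_mul_of_nonneg_right h6 hA0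
    nlinarith
  have h4 : (0 : ℝ) < Fintype.card ((ι → G) × (ι → Bool)) := by exact_mod_cast Fintype.card_pos
  refine le_of_mul_le_mul_left ?_ h4
  rw [h1]
  calc (Fintype.card (Fin (2 * k) → F) : ℝ) * ∑ y : (ι → G) × (ι → Bool), (chi a y) ^ (2 * k)
      ≤ (Fintype.card (Fin (2 * k) → F) : ℝ) *
        ((Fintype.card ((ι → G) × (ι → Bool)) : ℝ) *
          (kc ((2 * k : ℕ) : ℝ) * (2 ^ k * A + (2 ^ k * B) ^ k))) := by gcongr
    _ ≤ (Fintype.card (Fin (2 * k) → F) : ℝ) *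
        ((Fintype.card ((ι → G) × (ι → Bool)) : ℝ) *
          (kc (2 * k) * 2 ^ (k * k) * (A + B ^ k))) := by gcongr
    _ = _ := by ring

/-- Values of the peaky functions. -/
lemma pk_sq (e : F ≃ G × Bool × H) (f : F) : pk e f ^ 2 = ind0 (e f).1 := by
  rw [pk, mul_pow, ind0_sq, sq, sg_mul_self, one_mul]

lemma abs_pk_rpow (e : F ≃ G × Bool × H) (f : F) {s : ℝ} (hs : 0 < s) :
    |pk e f| ^ s = pk e f ^ 2 := by
  rw [pk_sq, pk, abs_mul, abs_sg, one_mul, abs_of_nonneg (ind0_nonneg _), ind0_rpow _ hs]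

/-- Orthogonality. -/
theorem sum_pk_mul (e : F ≃ G × Bool × H) (d : ℕ) (hd : 2 ≤ d) {x : ι → F}
    (hx : Function.Injective x) (i j : ι) :
    ∑ c : Fin d → F, pk e (ev d x c i) * pk e (ev d x c j) =
      if i = j then (Fintype.card (Fin d → F) : ℝ) * (Fintype.card G : ℝ)⁻¹ else 0 := by
  have h1 : ∀ i : ι, ∑ c : Fin d → F, pk e (ev d x c i) ^ 2 =
      (Fintype.card (Fin d → F) : ℝ) * (Fintype.card G : ℝ)⁻¹ := by
    intro i
    have h2 := moment_two e d hd hx (Pi.single i (1 : ℝ))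
    have h3 : ∀ g : ι → ℝ, ∑ k, (Pi.single i (1 : ℝ) : ι → ℝ) k * g k = g i := by
      intro g
      rw [sum_eq_single i]
      · simp
      · intro b _ hb
        simp [hb]
      · intro h; exact absurd (mem_univ _) h
    simp only [h3] at h2
    rw [h2]
    have h4 : ∑ k, (Pi.single i (1 : ℝ) : ι → ℝ) k ^ 2 = 1 := by
      have := h3 (Pi.single i (1 : ℝ))
      simp only [← sq] at this
      rw [this]
      simp
    rw [h4, mul_one]
  split_ifs with hij
  · subst hij
    rw [← h1 i]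
    exact sum_congr rfl fun c _ => (sq _).symm
  · have h2 := moment_two e d hd hx (Pi.single i (1 : ℝ) + Pi.single j (1 : ℝ))
    have h3 : ∀ g : ι → ℝ, ∑ k, (Pi.single i (1 : ℝ) + Pi.single j (1 : ℝ) : ι → ℝ) k * g k =
        g i + g j := by
      intro g
      simp only [Pi.add_apply, add_mul, sum_add_distrib]
      congr 1
      · rw [sum_eq_single i]
        · simp
        · intro b _ hb
          simp [hb]
        · intro h; exact absurd (mem_univ _) h
      · rw [sum_eq_single j]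
        · simp
        · intro b _ hb
          simp [hb]
        · intro h; exact absurd (mem_univ _) h
    simp only [h3] at h2
    have h4 : ∑ k, (Pi.single i (1 : ℝ) + Pi.single j (1 : ℝ) : ι → ℝ) k ^ 2 = 2 := by
      have := h3 (Pi.single i (1 : ℝ) + Pi.single j (1 : ℝ))
      simp only [← sq] at this
      rw [this]
      simp [hij, Ne.symm hij]
      norm_num
    rw [h4] at h2
    have h5 : ∀ c : Fin d → F, (pk e (ev d x c i) + pk e (ev d x c j)) ^ 2 =
        pk e (ev d x c i) ^ 2 + 2 * (pk e (ev d x c i) * pk e (ev d x c j)) +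
          pk e (ev d x c j) ^ 2 := fun c => by ring
    rw [sum_congr rfl fun c _ => h5 c, sum_add_distrib, sum_add_distrib, h1, h1, ← mul_sum] at h2
    linarith

end Pool.Agent.H42.KC
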