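import Pool.Agent.H42.KC.Dyadic
import Pool.Agent.H42.KC.Moment

/-!
# The peaky functions in `ℓ_q`
-/

set_option autoImplicit false

namespace Pool.Agent.H42.KC

open Finset Pool.Agent.H14.NP
open scoped ENNReal

section sys

variable {F G H : Type*} [Field F] [Fintype F] [AddCommGroup G] [Fintype G] [DecidableEq G]
  [Fintype H] [Nonempty H] {ι : Type*} [Fintype ι] [DecidableEq ι]

/-- The constant in the moment bound. -/
noncomputable def K0 (k : ℕ) : ℝ := max 1 (kc (2 * k) * 2 ^ (k * k))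

/-- The polynomial system. -/
theorem sys_pk (e : F ≃ G × Bool × H) (k : ℕ) (hk : 1 ≤ k) {x : ι → F}
    (hx : Function.Injective x) :
    Sys (fun i (c : Fin (2 * k) → F) => pk e (ev (2 * k) x c i)) (Fintype.card G : ℝ) (K0 k) k where
  M_pos := by exact_mod_cast Fintype.card_pos
  K_one := le_max_left _ _
  two a := moment_two e (2 * k) (by omega) hx a
  even a := by
    refine (moment_even e k hk hx a).trans ?_
    have h1 : 0 ≤ ∑ i, a i ^ (2 * k) := sum_nonneg fun i _ => by rw [pow_mul]; positivity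
    have h2 : 0 ≤ ∑ i, a i ^ 2 := sum_nonneg fun i _ => sq_nonneg _
    gcongr
    exact le_max_right _ _
  val i c s hs := abs_pk_rpow e _ hs
  norm i := by
    have := sum_pk_mul e (2 * k) (by omega) hx i i
    rw [if_pos rfl] at this
    rw [← this]
    exact sum_congr rfl fun c _ => sq _

end sys

variable {𝕜 : Type*} [RCLike 𝕜] {Ω ι : Type*} [Fintype Ω] [Fintype ι]

/-- The map `a ↦ c₀ ∑ a_i ξ_i` into `ℓ_p(Ω)`. -/
noncomputable def Um (𝕜 : Type*) [RCLike 𝕜] (p : ℝ≥0∞) (ξ : ι → Ω → ℝ) (c₀ : ℝ) :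
    (ι → 𝕜) →ₗ[𝕜] PiLp p (fun _ : Ω => 𝕜) where
  toFun a := WithLp.toLp p fun c => (c₀ : 𝕜) * ∑ i, a i * (ξ i c : 𝕜)
  map_add' a b := by
    ext c
    change (c₀ : 𝕜) * ∑ i, (a + b) i * (ξ i c : 𝕜) =
      (c₀ : 𝕜) * ∑ i, a i * (ξ i c : 𝕜) + (c₀ : 𝕜) * ∑ i, b i * (ξ i c : 𝕜)
    rw [← mul_add, ← sum_add_distrib]
    congr 1
    exact sum_congr rfl fun i _ => by rw [Pi.add_apply, add_mul]
  map_smul' z a := by
    ext c
    change (c₀ : 𝕜) * ∑ i, (z • a) i * (ξ i c : 𝕜) = z * ((c₀ : 𝕜) * ∑ i, a i * (ξ i c : 𝕜))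
    rw [mul_left_comm z, mul_sum (a := z)]
    congr 1
    exact sum_congr rfl fun i _ => by rw [Pi.smul_apply, smul_eq_mul, mul_assoc]

omit [Fintype Ω] in
lemma Um_apply (p : ℝ≥0∞) (ξ : ι → Ω → ℝ) (c₀ : ℝ) (a : ι → 𝕜) (c : Ω) :
    Um 𝕜 p ξ c₀ a c = (c₀ : 𝕜) * ∑ i, a i * (ξ i c : 𝕜) := rfl

omit [Fintype Ω] in
lemma re_sum_mul (ξ : ι → Ω → ℝ) (a : ι → 𝕜) (c : Ω) :
    RCLike.re (∑ i, a i * (ξ i c : 𝕜)) = cb ξ (fun i => RCLike.re (a i)) c := by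
  unfold cb
  rw [map_sum]
  exact sum_congr rfl fun i _ => RCLike.re_mul_ofReal _ _

omit [Fintype Ω] in
lemma im_sum_mul (ξ : ι → Ω → ℝ) (a : ι → 𝕜) (c : Ω) :
    RCLike.im (∑ i, a i * (ξ i c : 𝕜)) = cb ξ (fun i => RCLike.im (a i)) c := by
  unfold cb
  rw [map_sum]
  exact sum_congr rfl fun i _ => RCLike.im_mul_ofReal _ _

lemma norm_le_re_im (z : 𝕜) : ‖z‖ ≤ |RCLike.re z| + |RCLike.im z| := by
  have h1 := norm_sq_re_im z
  refine le_of_sq_le_sq ?_ (by positivity)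
  rw [h1, add_sq, sq_abs, sq_abs]
  nlinarith [mul_nonneg (abs_nonneg (RCLike.re z)) (abs_nonneg (RCLike.im z))]

theorem norm_Um_le [Nonempty Ω] {ξ : ι → Ω → ℝ} {M K₀ : ℝ} {k : ℕ} (hS : Sys ξ M K₀ k)
    {p : ℝ≥0∞} [hp1 : Fact (1 ≤ p)] (h2 : 2 < p.toReal) (hk : p.toReal < 2 * k) (r : ℕ)
    (hr : Fintype.card ι ≤ 2 ^ r) (a : ι → 𝕜) :
    ‖Um 𝕜 p ξ (((Fintype.card Ω : ℝ) * M⁻¹) ^ (-(1 / p.toReal))) a‖ ≤
      2 * (2 * K₀ * r + 1) * (‖(WithLp.toLp p a : PiLp p (fun _ : ι => 𝕜))‖ +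
        M ^ (-(1 / 2 - 1 / p.toReal)) * ‖(WithLp.toLp 2 a : PiLp 2 (fun _ : ι => 𝕜))‖) := by
  set q := p.toReal with hq
  have hq0 : 0 < q := by linarith
  have hM := hS.M_pos
  have hK := hS.K_one
  set N : ℝ := (Fintype.card Ω : ℝ) with hN
  have hN0 : 0 < N := by rw [hN]; exact_mod_cast Fintype.card_pos
  have hNM : 0 < N * M⁻¹ := by positivity
  set c₀ : ℝ := (N * M⁻¹) ^ (-(1 / q)) with hc₀
  have hc0 : 0 < c₀ := Real.rpow_pos_of_pos hNM _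
  set A : ℝ := ∑ i, ‖a i‖ ^ q with hA
  set B : ℝ := ∑ i, ‖a i‖ ^ 2 with hB
  have hA0 : 0 ≤ A := sum_nonneg fun i _ => Real.rpow_nonneg (norm_nonneg _) _
  have hB0 : 0 ≤ B := sum_nonneg fun i _ => by positivity
  have hna : ‖(WithLp.toLp p a : PiLp p (fun _ : ι => 𝕜))‖ = A ^ (1 / q) := by
    rw [PiLp.norm_eq_sum hq0]
  have hnb : ‖(WithLp.toLp 2 a : PiLp 2 (fun _ : ι => 𝕜))‖ = B ^ ((1 : ℝ) / 2) := by
    rw [EuclideanSpace.norm_eq, Real.sqrt_eq_rpow]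
  have hbd : ∀ b : ι → ℝ, (∀ i, |b i| ≤ ‖a i‖) → lq q (cb ξ b) ≤ (2 * K₀ * r + 1) *
      (N ^ (1 / q) * ((M⁻¹ * A) ^ (1 / q) + (M⁻¹ * B) ^ ((1 : ℝ) / 2))) := by
    intro b hb
    refine (hS.bound h2 hk r hr b).trans ?_
    have h3 : ∑ i, |b i| ^ q ≤ A := sum_le_sum fun i _ =>
      Real.rpow_le_rpow (abs_nonneg _) (hb i) hq0.le
    have h4 : ∑ i, b i ^ 2 ≤ B := sum_le_sum fun i _ => by
      rw [← sq_abs]
      exact pow_le_pow_left₀ (abs_nonneg _) (hb i) 2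
    have h5 : 0 ≤ ∑ i, |b i| ^ q := sum_abs_nonneg q _
    have h6 : 0 ≤ ∑ i, b i ^ 2 := sum_nonneg fun i _ => sq_nonneg _
    gcongr
  have h3 := hbd (fun i => RCLike.re (a i)) fun i => RCLike.abs_re_le_norm _
  have h4 := hbd (fun i => RCLike.im (a i)) fun i => RCLike.abs_im_le_norm _
  have h5 : ‖Um 𝕜 p ξ c₀ a‖ ≤ c₀ * (lq q (cb ξ fun i => RCLike.re (a i)) +
      lq q (cb ξ fun i => RCLike.im (a i))) := by
    rw [PiLp.norm_eq_sum hq0]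
    have e1 : (∑ c, ‖Um 𝕜 p ξ c₀ a c‖ ^ q) ^ (1 / q) = lq q (c₀ • fun c => ‖∑ i, a i * (ξ i c : 𝕜)‖) := by
      unfold lq
      congr 1
      refine sum_congr rfl fun c _ => ?_
      rw [Um_apply, norm_mul, RCLike.norm_ofReal, abs_of_pos hc0, Pi.smul_apply, smul_eq_mul,
        abs_mul, abs_of_pos hc0, abs_norm]
    rw [e1, lq_smul hq0, abs_of_pos hc0]
    gcongr
    have e2 : lq q (fun c => ‖∑ i, a i * (ξ i c : 𝕜)‖) ≤
        lq q ((fun c => |cb ξ (fun i => RCLike.re (a i)) c|) +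
          fun c => |cb ξ (fun i => RCLike.im (a i)) c|) := by
      refine lq_mono hq0 fun c => ?_
      rw [abs_norm, Pi.add_apply, abs_of_nonneg (by positivity), ← re_sum_mul, ← im_sum_mul]
      exact norm_le_re_im _
    refine e2.trans ((lq_add (by linarith) _ _).trans (le_of_eq ?_))
    unfold lq
    simp only [abs_abs]
  refine h5.trans ?_
  have h6 : c₀ * N ^ (1 / q) = M ^ (1 / q) := by
    rw [hc₀, Real.mul_rpow hN0.le (by positivity), Real.rpow_neg hN0.le, Real.inv_rpow hM.le,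
      Real.rpow_neg hM.le, inv_inv]
    have : N ^ (1 / q) ≠ 0 := (Real.rpow_pos_of_pos hN0 _).ne'
    field_simp
  have h7 : M ^ (1 / q) * (M⁻¹ * A) ^ (1 / q) = A ^ (1 / q) := by
    rw [← Real.mul_rpow hM.le (by positivity), mul_inv_cancel_left₀ hM.ne']
  have h8 : M ^ (1 / q) * (M⁻¹ * B) ^ ((1 : ℝ) / 2) = M ^ (-(1 / 2 - 1 / q)) * B ^ ((1 : ℝ) / 2) := by
    rw [Real.mul_rpow (by positivity) hB0, Real.inv_rpow hM.le, ← Real.rpow_neg hM.le, ← mul_assoc,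
      ← Real.rpow_add hM]
    congr 2
    ring
  rw [hna, hnb]
  calc c₀ * (lq q (cb ξ fun i => RCLike.re (a i)) + lq q (cb ξ fun i => RCLike.im (a i)))
      ≤ c₀ * ((2 * K₀ * r + 1) * (N ^ (1 / q) * ((M⁻¹ * A) ^ (1 / q) + (M⁻¹ * B) ^ ((1 : ℝ) / 2))) +
        (2 * K₀ * r + 1) * (N ^ (1 / q) * ((M⁻¹ * A) ^ (1 / q) + (M⁻¹ * B) ^ ((1 : ℝ) / 2)))) := by
        gcongr
    _ = 2 * (2 * K₀ * r + 1) * ((c₀ * N ^ (1 / q)) * (M⁻¹ * A) ^ (1 / q) +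
        (c₀ * N ^ (1 / q)) * (M⁻¹ * B) ^ ((1 : ℝ) / 2)) := by ring
    _ = _ := by rw [h6, h7, h8]

end Pool.Agent.H42.KC
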