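import Pool.Agent.H42.KC.Defs
import Pool.Agent.H42.KC.UMap

/-!
# Lifts of the coordinate functionals and random signs
-/

set_option autoImplicit false

namespace Pool.Agent.H42.KC

open Finset Pool.Agent.H14.NP
open scoped ENNReal

variable {𝕜 : Type*} [RCLike 𝕜] {E : Type*} [NormedAddCommGroup E] [NormedSpace 𝕜 E]

/-- Lifts of the coordinate functionals. -/
theorem exists_lifts {Ω : Type*} [Fintype Ω] {p : ℝ≥0∞} [Fact (1 ≤ p)]
    (J : PiLp p (fun _ : Ω => 𝕜) →L[𝕜] E) (hJ : ∀ x, ‖x‖ ≤ ‖J x‖) :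
    ∃ f : Ω → E →L[𝕜] 𝕜, (∀ c, ‖f c‖ ≤ 1) ∧ ∀ c x, f c (J x) = x c := by
  classical
  have hinj : Function.Injective J := by
    rw [injective_iff_map_eq_zero]
    intro x hx
    have := hJ x
    rw [hx, norm_zero] at this
    exact norm_le_zero_iff.1 this
  let Eq := LinearEquiv.ofInjective J.toLinearMap hinj
  have hE : ∀ x, ((Eq x : LinearMap.range J.toLinearMap) : E) = J x := fun x => rfl
  have hE' : ∀ y : LinearMap.range J.toLinearMap, J (Eq.symm y) = y := by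
    intro y
    rw [← hE, Eq.apply_symm_apply]
  have key : ∀ c : Ω, ∃ g : E →L[𝕜] 𝕜, ‖g‖ ≤ 1 ∧ ∀ x, g (J x) = x c := by
    intro c
    let φ : LinearMap.range J.toLinearMap →ₗ[𝕜] 𝕜 :=
      { toFun := fun y => (Eq.symm y) c
        map_add' := fun y z => by rw [map_add]; rfl
        map_smul' := fun t y => by rw [map_smul]; rfl }
    have hφ : ∀ y, ‖φ y‖ ≤ 1 * ‖y‖ := by
      intro y
      rw [one_mul]
      calc ‖φ y‖ = ‖(Eq.symm y) c‖ := rfl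
        _ ≤ ‖Eq.symm y‖ := PiLp.norm_apply_le _ _
        _ ≤ ‖J (Eq.symm y)‖ := hJ _
        _ = ‖y‖ := by rw [hE']; rfl
    obtain ⟨g, hg, hgn⟩ := exists_extension_norm_eq (LinearMap.range J.toLinearMap)
      (φ.mkContinuous 1 hφ)
    refine ⟨g, ?_, fun x => ?_⟩
    · rw [hgn]
      exact LinearMap.mkContinuous_norm_le _ zero_le_one _
    · have h1 := hg (Eq x)
      rw [hE] at h1
      rw [h1]
      change (Eq.symm (Eq x)) c = x c
      rw [Eq.symm_apply_apply]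
  choose f hf1 hf2 using key
  exact ⟨f, hf1, hf2⟩

/-- The type inequality for arbitrary finite index sets. -/
theorem type_fintype {X : Type*} [NormedAddCommGroup X] {s T : ℝ}
    (hT : ∀ (n : ℕ) (x : Fin n → X),
      (∑ ε : Fin n → Bool, ‖∑ i, (if ε i then x i else -x i)‖) / 2 ^ n ≤
        T * (∑ i, ‖x i‖ ^ s) ^ (1 / s)) {Ω : Type*} [Fintype Ω] [DecidableEq Ω] (x : Ω → X) :
    ∑ θ : Ω → Bool, ‖∑ c, (if θ c then x c else -x c)‖ ≤
      (Fintype.card (Ω → Bool) : ℝ) * (T * (∑ c, ‖x c‖ ^ s) ^ (1 / s)) := by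
  let e : Ω ≃ Fin (Fintype.card Ω) := Fintype.equivFin Ω
  have h1 := hT (Fintype.card Ω) (fun i => x (e.symm i))
  have h2 : ∑ i, ‖x (e.symm i)‖ ^ s = ∑ c, ‖x c‖ ^ s := Equiv.sum_comp e.symm (fun c => ‖x c‖ ^ s)
  have h3 : ∑ ε : Fin (Fintype.card Ω) → Bool,
      ‖∑ i, (if ε i then x (e.symm i) else -x (e.symm i))‖ =
      ∑ θ : Ω → Bool, ‖∑ c, (if θ c then x c else -x c)‖ := by
    rw [← Equiv.sum_comp (Equiv.arrowCongr e.symm (Equiv.refl Bool))]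
    refine sum_congr rfl fun ε _ => ?_
    congr 1
    rw [← Equiv.sum_comp e.symm]
    refine sum_congr rfl fun i _ => ?_
    simp [Equiv.arrowCongr]
  rw [h2, h3, div_le_iff₀ (by positivity)] at h1
  refine h1.trans (le_of_eq ?_)
  rw [Fintype.card_fun, Fintype.card_bool]
  push_cast
  ring

lemma ite_eq_sg {X : Type*} [AddCommGroup X] [Module 𝕜 X] (b : Bool) (v : X) :
    (if b then v else -v) = ((sg b : ℝ) : 𝕜) • v := by
  cases b <;> simp [sg]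

/-- Choice of a point where two averages are controlled simultaneously. -/
lemma exists_both {Θ : Type*} [Fintype Θ] [Nonempty Θ] (D1 D2 : Θ → ℝ) (b1 b2 : ℝ)
    (h1 : 0 < b1) (h2 : 0 < b2) (hD1 : ∀ θ, 0 ≤ D1 θ) (hD2 : ∀ θ, 0 ≤ D2 θ)
    (hs1 : ∑ θ, D1 θ ≤ (Fintype.card Θ : ℝ) * b1) (hs2 : ∑ θ, D2 θ ≤ (Fintype.card Θ : ℝ) * b2) :
    ∃ θ, D1 θ ≤ 2 * b1 ∧ D2 θ ≤ 2 * b2 := by
  have h3 : ∑ θ, (D1 θ / b1 + D2 θ / b2) ≤ ∑ _θ : Θ, (2 : ℝ) := by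
    rw [sum_add_distrib, ← sum_div, ← sum_div, sum_const, card_univ, nsmul_eq_mul]
    have e1 : (∑ θ, D1 θ) / b1 ≤ Fintype.card Θ := by rw [div_le_iff₀ h1]; exact hs1
    have e2 : (∑ θ, D2 θ) / b2 ≤ Fintype.card Θ := by rw [div_le_iff₀ h2]; exact hs2
    linarith
  obtain ⟨θ, -, hθ⟩ := exists_le_of_sum_le univ_nonempty h3
  have e1 : 0 ≤ D1 θ / b1 := div_nonneg (hD1 θ) h1.le
  have e2 : 0 ≤ D2 θ / b2 := div_nonneg (hD2 θ) h2.le
  refine ⟨θ, ?_, ?_⟩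
  · have : D1 θ / b1 ≤ 2 := by linarith
    rwa [div_le_iff₀ h1] at this
  · have : D2 θ / b2 ≤ 2 := by linarith
    rwa [div_le_iff₀ h2] at this

variable {Ω ι : Type*} [Fintype Ω] [Fintype ι] [DecidableEq Ω] [DecidableEq ι]

/-- The functionals dual to the peaky functions. -/
noncomputable def Psi (ξ : ι → Ω → ℝ) (κ₀ : ℝ) (f : Ω → E →L[𝕜] 𝕜) (θ : Ω → Bool) (i : ι) :
    E →L[𝕜] 𝕜 := ∑ c, ((κ₀ * ξ i c * sg (θ c) : ℝ) : 𝕜) • f c

omit [DecidableEq Ω] [DecidableEq ι] in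
lemma sum_Psi (ξ : ι → Ω → ℝ) (κ₀ : ℝ) (f : Ω → E →L[𝕜] 𝕜) (θ : Ω → Bool) (b : ι → ℝ) :
    ∑ i, ((b i : ℝ) : 𝕜) • Psi ξ κ₀ f θ i =
      ∑ c, (if θ c then ((κ₀ * cb ξ b c : ℝ) : 𝕜) • f c else -(((κ₀ * cb ξ b c : ℝ) : 𝕜) • f c)) := by
  simp only [Psi, smul_sum]
  rw [sum_comm]
  refine sum_congr rfl fun c _ => ?_
  rw [ite_eq_sg (𝕜 := 𝕜), smul_smul, cb]
  simp only [smul_smul]
  rw [← sum_smul]
  congr 1
  push_cast
  rw [mul_sum, mul_sum]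
  exact sum_congr rfl fun i _ => by ring

omit [DecidableEq ι] in
/-- Average over the signs of the norm of a combination. -/
lemma sum_norm_Psi [Nonempty Ω] {s T : ℝ} (hs0 : 0 < s) (hT0 : 0 ≤ T)
    (hT : ∀ (n : ℕ) (x : Fin n → (E →L[𝕜] 𝕜)),
      (∑ ε : Fin n → Bool, ‖∑ i, (if ε i then x i else -x i)‖) / 2 ^ n ≤
        T * (∑ i, ‖x i‖ ^ s) ^ (1 / s))
    (ξ : ι → Ω → ℝ) {κ₀ : ℝ} (hκ : 0 ≤ κ₀) (f : Ω → E →L[𝕜] 𝕜) (hf : ∀ c, ‖f c‖ ≤ 1) (b : ι → ℝ) :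
    ∑ θ : Ω → Bool, ‖∑ i, ((b i : ℝ) : 𝕜) • Psi ξ κ₀ f θ i‖ ≤
      (Fintype.card (Ω → Bool) : ℝ) * (T * (κ₀ * lq s (cb ξ b))) := by
  simp only [sum_Psi]
  refine (type_fintype hT _).trans ?_
  gcongr
  have h1 : ∀ c, ‖((κ₀ * cb ξ b c : ℝ) : 𝕜) • f c‖ ^ s ≤ |(κ₀ • cb ξ b) c| ^ s := by
    intro c
    refine Real.rpow_le_rpow (norm_nonneg _) ?_ hs0.le
    rw [norm_smul, RCLike.norm_ofReal, Pi.smul_apply, smul_eq_mul]
    exact mul_le_of_le_one_right (abs_nonneg _) (hf c)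
  have h2 := lq_smul hs0 κ₀ (cb ξ b)
  rw [abs_of_nonneg hκ] at h2
  rw [← h2]
  unfold lq
  exact Real.rpow_le_rpow (sum_nonneg fun c _ => Real.rpow_nonneg (norm_nonneg _) _)
    (sum_le_sum fun c _ => h1 c) (by positivity)

/-- Choice of the signs. -/
theorem exists_theta [Nonempty Ω] [Nonempty ι] {ξ : ι → Ω → ℝ} {M K₀ : ℝ} {k : ℕ}
    (hS : Sys ξ M K₀ k) {s T : ℝ} (hs1 : 1 ≤ s) (hs2 : s ≤ 2) (hT0 : 0 < T)
    (hT : ∀ (n : ℕ) (x : Fin n → (E →L[𝕜] 𝕜)),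
      (∑ ε : Fin n → Bool, ‖∑ i, (if ε i then x i else -x i)‖) / 2 ^ n ≤
        T * (∑ i, ‖x i‖ ^ s) ^ (1 / s))
    {κ₀ : ℝ} (hκ : 0 < κ₀) (f : Ω → E →L[𝕜] 𝕜) (hf : ∀ c, ‖f c‖ ≤ 1) :
    ∃ θ : Ω → Bool,
      ∑ g : ι → Bool, ‖∑ i, ((sg (g i) : ℝ) : 𝕜) • Psi ξ κ₀ f θ i‖ ≤
        (Fintype.card (ι → Bool) : ℝ) * (2 * (T * (κ₀ * ((Fintype.card Ω : ℝ) ^ (1 / s) *
          (M⁻¹ * Fintype.card ι) ^ ((1 : ℝ) / 2))))) ∧
      ∑ i, ‖Psi ξ κ₀ f θ i‖ ≤ (Fintype.card ι : ℝ) *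
        (2 * (T * (κ₀ * ((Fintype.card Ω : ℝ) * M⁻¹) ^ (1 / s)))) := by
  have hs0 : 0 < s := by linarith
  have hM := hS.M_pos
  set N : ℝ := (Fintype.card Ω : ℝ) with hN
  have hN0 : 0 < N := by rw [hN]; exact_mod_cast Fintype.card_pos
  set m : ℝ := (Fintype.card ι : ℝ) with hm
  have hm0 : 0 < m := by rw [hm]; exact_mod_cast Fintype.card_pos
  set G : ℝ := (Fintype.card (ι → Bool) : ℝ) with hG
  have hG0 : 0 < G := by rw [hG]; exact_mod_cast Fintype.card_pos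
  have h1 : ∀ g : ι → Bool, lq s (cb ξ fun i => sg (g i)) ≤
      N ^ (1 / s) * (M⁻¹ * m) ^ ((1 : ℝ) / 2) := by
    intro g
    have e1 := (mean_bounds hs1 hs2 (fun c : Ω => |cb ξ (fun i => sg (g i)) c|)
      fun c => abs_nonneg _).2
    rw [← hN] at e1
    have e2 : ∑ c, |cb ξ (fun i => sg (g i)) c| ^ 2 = N * (M⁻¹ * m) := by
      have e3 := hS.two (fun i => sg (g i))
      simp only [sq_abs]
      unfold cb
      rw [e3]
      have : ∀ i, sg (g i) ^ 2 = 1 := fun i => by rw [sq, sg_mul_self]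
      simp only [this, sum_const, card_univ, nsmul_eq_mul, mul_one]
      rfl
    rw [e2, inv_mul_cancel_left₀ hN0.ne', Real.sqrt_eq_rpow] at e1
    unfold lq
    have e4 : 0 ≤ ∑ c, |cb ξ (fun i => sg (g i)) c| ^ s := sum_abs_nonneg s _
    calc (∑ c, |cb ξ (fun i => sg (g i)) c| ^ s) ^ (1 / s)
        = (N * (N⁻¹ * ∑ c, |cb ξ (fun i => sg (g i)) c| ^ s)) ^ (1 / s) := by
          rw [mul_inv_cancel_left₀ hN0.ne']
      _ = N ^ (1 / s) * (N⁻¹ * ∑ c, |cb ξ (fun i => sg (g i)) c| ^ s) ^ (1 / s) :=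
          Real.mul_rpow hN0.le (by positivity)
      _ ≤ _ := by gcongr
  obtain ⟨θ, hθ1, hθ2⟩ := exists_both
    (fun θ : Ω → Bool => G⁻¹ * ∑ g : ι → Bool, ‖∑ i, ((sg (g i) : ℝ) : 𝕜) • Psi ξ κ₀ f θ i‖)
    (fun θ : Ω → Bool => m⁻¹ * ∑ i, ‖Psi ξ κ₀ f θ i‖)
    (T * (κ₀ * (N ^ (1 / s) * (M⁻¹ * m) ^ ((1 : ℝ) / 2))))
    (T * (κ₀ * (N * M⁻¹) ^ (1 / s))) (by positivity) (by positivity)
    (fun θ => by positivity) (fun θ => by positivity) (by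
      rw [← mul_sum, sum_comm]
      rw [inv_mul_le_iff₀ hG0]
      have e0 : ∀ g : ι → Bool, ∑ θ : Ω → Bool, ‖∑ i, ((sg (g i) : ℝ) : 𝕜) • Psi ξ κ₀ f θ i‖ ≤
          (Fintype.card (Ω → Bool) : ℝ) *
            (T * (κ₀ * (N ^ (1 / s) * (M⁻¹ * m) ^ ((1 : ℝ) / 2)))) := by
        intro g
        refine (sum_norm_Psi hs0 hT0.le hT ξ hκ.le f hf (fun i => sg (g i))).trans ?_
        have := h1 g
        gcongr
      refine (sum_le_sum fun g _ => e0 g).trans (le_of_eq ?_)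
      rw [sum_const, card_univ, nsmul_eq_mul]) (by
      rw [← mul_sum, sum_comm]
      rw [inv_mul_le_iff₀ hm0]
      have e1 : ∀ i, ∑ θ : Ω → Bool, ‖Psi ξ κ₀ f θ i‖ ≤
          (Fintype.card (Ω → Bool) : ℝ) * (T * (κ₀ * (N * M⁻¹) ^ (1 / s))) := by
        intro i
        have e2 := sum_norm_Psi hs0 hT0.le hT ξ hκ.le f hf (Pi.single i (1 : ℝ))
        have e3 : ∀ θ : Ω → Bool, ∑ j, (((Pi.single i (1 : ℝ) : ι → ℝ) j : ℝ) : 𝕜) •
            Psi ξ κ₀ f θ j = Psi ξ κ₀ f θ i := by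
          intro θ
          rw [sum_eq_single i]
          · rw [Pi.single_eq_same, RCLike.ofReal_one, one_smul]
          · intro b _ hb
            rw [Pi.single_eq_of_ne hb, RCLike.ofReal_zero]
            exact zero_smul 𝕜 (Psi ξ κ₀ f θ b)
          · intro h; exact absurd (mem_univ _) h
        have e4 : cb ξ (Pi.single i (1 : ℝ)) = ξ i := by
          funext c
          unfold cb
          rw [sum_eq_single i]
          · simp
          · intro b _ hb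
            simp [hb]
          · intro h; exact absurd (mem_univ _) h
        simp only [e3] at e2
        rw [e4, lq_single_le hS hs0 i] at e2
        exact e2
      refine (sum_le_sum fun i _ => e1 i).trans (le_of_eq ?_)
      rw [sum_const, card_univ, nsmul_eq_mul])
  refine ⟨θ, ?_, ?_⟩
  · have := hθ1
    rw [inv_mul_le_iff₀ hG0] at this
    exact this
  · have := hθ2
    rw [inv_mul_le_iff₀ hm0] at this
    exact this

end Pool.Agent.H42.KC
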