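import Mathlib

/-!
# Choice of the parameters
-/

set_option autoImplicit false

namespace Pool.Agent.H42.KC

open Filter Topology

lemma exists_n (θ : ℝ) (hθ : 0 < θ) (D : ℝ) :
    ∃ n : ℕ, 0 < n ∧ D * (n : ℝ) ^ 3 < ((2 : ℝ) ^ n) ^ (θ / 2) := by
  have hbase : 1 < (2 : ℝ) ^ (θ / 2) := Real.one_lt_rpow (by norm_num) (by positivity)
  have h1 : Tendsto (fun r : ℕ => (r : ℝ) ^ 3 / ((2 : ℝ) ^ (θ / 2)) ^ r) atTop (𝓝 0) :=
    tendsto_pow_const_div_const_pow_of_one_lt 3 hbase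
  have hε : 0 < 1 / (|D| + 1) := by positivity
  obtain ⟨n, hn1, hn2⟩ := ((h1.eventually (gt_mem_nhds hε)).and (eventually_gt_atTop 0)).exists
  refine ⟨n, hn2, ?_⟩
  have h2 : ((2 : ℝ) ^ n) ^ (θ / 2) = ((2 : ℝ) ^ (θ / 2)) ^ n := by
    rw [← Real.rpow_natCast, ← Real.rpow_natCast, ← Real.rpow_mul (by norm_num),
      ← Real.rpow_mul (by norm_num), mul_comm]
  rw [h2]
  rw [div_lt_div_iff₀ (by positivity) (by positivity)] at hn1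
  have h3 : D * (n : ℝ) ^ 3 ≤ |D| * (n : ℝ) ^ 3 := by
    gcongr
    exact le_abs_self D
  have h4 : 0 ≤ (n : ℝ) ^ 3 := by positivity
  linarith

/-- The choice of the size of the block. -/
theorem numeric (q s : ℝ) (hq : 2 < q) (k : ℕ) (hk : 1 ≤ k)
    (hs : 1 / s = 1 - 1 / q + (1 / 2 - 1 / q) / (12 * k)) (K₀ T K : ℝ) (hK₀ : 1 ≤ K₀)
    (hT : 0 < T) (hK : 0 ≤ K) :
    ∃ n : ℕ, 0 < n ∧ ∀ M N : ℝ, M = 2 ^ n → N = (2 ^ (2 * n + 1)) ^ (2 * k) →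
      2 * (2 * K₀ * ((2 * n : ℕ) : ℝ) + 1) * (K * (2 * (2 ^ (2 * n) : ℝ) ^ (1 / q)) *
        (2 * (T * ((N * M⁻¹) ^ (1 / q - 1) * (N ^ (1 / s) *
          (M⁻¹ * 2 ^ (2 * n)) ^ ((1 : ℝ) / 2))))) +
        M ^ (-(1 / 2 - 1 / q)) * (K * 2 * (2 ^ (2 * n) *
          (2 * (T * ((N * M⁻¹) ^ (1 / q - 1) * (N * M⁻¹) ^ (1 / s))))))) <
      (2 : ℝ) ^ (2 * n) / (8 * ((2 * n : ℕ) : ℝ) ^ 2) := by
  set θ : ℝ := 1 / 2 - 1 / q with hθ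
  have hq0 : 0 < q := by linarith
  have hθ0 : 0 < θ := by
    have h1 : 1 / q < 1 / 2 := one_div_lt_one_div_of_lt (by norm_num) hq
    rw [hθ]; linarith
  have hk' : (1 : ℝ) ≤ k := by exact_mod_cast hk
  set δ : ℝ := θ / (12 * k) with hδ
  have hδ0 : 0 < δ := by positivity
  obtain ⟨n, hn, hnD⟩ := exists_n θ hθ0 (2560 * K₀ * K * T)
  refine ⟨n, hn, fun M N hM hN => ?_⟩
  have hn' : (1 : ℝ) ≤ n := by exact_mod_cast hn
  have hM0 : 0 < M := by rw [hM]; positivity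
  have hM1 : 1 ≤ M := by rw [hM]; exact one_le_pow₀ (by norm_num)
  have hN0 : 0 < N := by rw [hN]; positivity
  have hNM : 0 < N * M⁻¹ := by positivity
  have h2r : (2 : ℝ) ^ (2 * n) = M ^ 2 := by rw [hM, ← pow_mul, mul_comm]
  have hNδ : N ^ δ ≤ M ^ (θ / 2) := by
    have e1 : N = (2 : ℝ) ^ (((2 * n + 1) * (2 * k) : ℕ) : ℝ) := by
      rw [hN, ← pow_mul, Real.rpow_natCast]
    have e2 : M = (2 : ℝ) ^ (n : ℝ) := by rw [hM, Real.rpow_natCast]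
    rw [e1, e2, ← Real.rpow_mul (by norm_num), ← Real.rpow_mul (by norm_num)]
    refine Real.rpow_le_rpow_of_exponent_le (by norm_num) ?_
    rw [hδ]
    push_cast
    have e3 : (2 * (n : ℝ) + 1) * (2 * k) * (θ / (12 * k)) = (2 * n + 1) * θ / 6 := by
      field_simp
      ring
    rw [e3]
    nlinarith
  have h1 : (N * M⁻¹) ^ (1 / q - 1) * N ^ (1 / s) = N ^ δ * M ^ (1 - 1 / q) := by
    rw [Real.mul_rpow hN0.le (by positivity), Real.inv_rpow hM0.le, ← Real.rpow_neg hM0.le,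
      mul_right_comm, ← Real.rpow_add hN0, hs]
    congr 2 <;> ring
  have h2 : (N * M⁻¹) ^ (1 / q - 1) * (N * M⁻¹) ^ (1 / s) ≤ N ^ δ := by
    rw [← Real.rpow_add hNM, hs]
    have e1 : 1 / q - 1 + (1 - 1 / q + δ) = δ := by ring
    rw [e1]
    refine Real.rpow_le_rpow hNM.le ?_ hδ0.le
    calc N * M⁻¹ ≤ N * 1 := by
          gcongr
          exact inv_le_one_of_one_le₀ hM1
      _ = N := mul_one _
  have h3 : (2 ^ (2 * n) : ℝ) ^ (1 / q) = M ^ (2 / q) := by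
    rw [h2r, ← Real.rpow_natCast M 2, ← Real.rpow_mul hM0.le]
    congr 1
    push_cast
    ring
  have h4 : (M⁻¹ * 2 ^ (2 * n)) ^ ((1 : ℝ) / 2) = M ^ ((1 : ℝ) / 2) := by
    rw [h2r]
    congr 1
    field_simp
  have hT1 : (2 * (2 ^ (2 * n) : ℝ) ^ (1 / q)) *
        (2 * (T * ((N * M⁻¹) ^ (1 / q - 1) * (N ^ (1 / s) *
          (M⁻¹ * 2 ^ (2 * n)) ^ ((1 : ℝ) / 2))))) = 4 * T * N ^ δ * (M ^ 2 * M ^ (-θ)) := by
    rw [h3, h4]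
    have e1 : M ^ 2 * M ^ (-θ) = M ^ (2 / q) * M ^ (1 - 1 / q) * M ^ ((1 : ℝ) / 2) := by
      rw [← Real.rpow_natCast M 2, ← Real.rpow_add hM0, ← Real.rpow_add hM0, ← Real.rpow_add hM0]
      congr 1
      rw [hθ]
      push_cast
      ring
    rw [e1]
    calc (2 * M ^ (2 / q)) * (2 * (T * ((N * M⁻¹) ^ (1 / q - 1) * (N ^ (1 / s) *
          M ^ ((1 : ℝ) / 2))))) = 4 * T * ((N * M⁻¹) ^ (1 / q - 1) * N ^ (1 / s)) *
            (M ^ (2 / q) * M ^ ((1 : ℝ) / 2)) := by ring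
      _ = _ := by rw [h1]; ring
  have hT2 : M ^ (-θ) * (2 * (2 ^ (2 * n) *
          (2 * (T * ((N * M⁻¹) ^ (1 / q - 1) * (N * M⁻¹) ^ (1 / s)))))) ≤
      4 * T * N ^ δ * (M ^ 2 * M ^ (-θ)) := by
    rw [h2r]
    calc M ^ (-θ) * (2 * (M ^ 2 * (2 * (T * ((N * M⁻¹) ^ (1 / q - 1) * (N * M⁻¹) ^ (1 / s))))))
        ≤ M ^ (-θ) * (2 * (M ^ 2 * (2 * (T * N ^ δ)))) := by gcongr
      _ = _ := by ring
  have hfin : 2 * (2 * K₀ * ((2 * n : ℕ) : ℝ) + 1) * (K * (4 * T * N ^ δ * (M ^ 2 * M ^ (-θ))) +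
      K * (4 * T * N ^ δ * (M ^ 2 * M ^ (-θ)))) < (2 : ℝ) ^ (2 * n) / (8 * ((2 * n : ℕ) : ℝ) ^ 2) := by
    rw [h2r, lt_div_iff₀ (by positivity)]
    have e1 : M ^ (-θ) * N ^ δ ≤ M ^ (-(θ / 2)) := by
      calc M ^ (-θ) * N ^ δ ≤ M ^ (-θ) * M ^ (θ / 2) := by gcongr
        _ = _ := by rw [← Real.rpow_add hM0]; congr 1; ring
    have e2 : 2 * (2 * K₀ * ((2 * n : ℕ) : ℝ) + 1) ≤ 10 * K₀ * n := by
      push_cast
      nlinarith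
    have e3 : M ^ (-(θ / 2)) * M ^ (θ / 2) = 1 := by
      rw [← Real.rpow_add hM0]
      have : -(θ / 2) + θ / 2 = 0 := by ring
      rw [this, Real.rpow_zero]
    have e4 : 2560 * K₀ * K * T * (n : ℝ) ^ 3 < M ^ (θ / 2) := by rw [hM]; exact hnD
    have hpos : 0 < M ^ (-(θ / 2)) := Real.rpow_pos_of_pos hM0 _
    calc 2 * (2 * K₀ * ((2 * n : ℕ) : ℝ) + 1) * (K * (4 * T * N ^ δ * (M ^ 2 * M ^ (-θ))) +
          K * (4 * T * N ^ δ * (M ^ 2 * M ^ (-θ)))) * (8 * ((2 * n : ℕ) : ℝ) ^ 2)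
        = (2 * (2 * K₀ * ((2 * n : ℕ) : ℝ) + 1)) * (64 * K * T * ((2 * n : ℕ) : ℝ) ^ 2 * M ^ 2) *
            (M ^ (-θ) * N ^ δ) := by ring
      _ ≤ (10 * K₀ * n) * (64 * K * T * ((2 * n : ℕ) : ℝ) ^ 2 * M ^ 2) * M ^ (-(θ / 2)) := by
          gcongr
      _ = (2560 * K₀ * K * T * (n : ℝ) ^ 3) * (M ^ (-(θ / 2)) * M ^ 2) := by
          push_cast
          ring
      _ < M ^ (θ / 2) * (M ^ (-(θ / 2)) * M ^ 2) := by gcongr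
      _ = (M ^ (-(θ / 2)) * M ^ (θ / 2)) * M ^ 2 := by ring
      _ = M ^ 2 := by rw [e3, one_mul]
  refine lt_of_le_of_lt ?_ hfin
  have hΛ : 0 ≤ 2 * (2 * K₀ * ((2 * n : ℕ) : ℝ) + 1) := by positivity
  refine mul_le_mul_of_nonneg_left (add_le_add ?_ ?_) hΛ
  · rw [← hT1]
    exact le_of_eq (by ring)
  · calc M ^ (-θ) * (K * 2 * (2 ^ (2 * n) *
          (2 * (T * ((N * M⁻¹) ^ (1 / q - 1) * (N * M⁻¹) ^ (1 / s))))))
        = K * (M ^ (-θ) * (2 * (2 ^ (2 * n) *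
          (2 * (T * ((N * M⁻¹) ^ (1 / q - 1) * (N * M⁻¹) ^ (1 / s))))))) := by ring
      _ ≤ _ := mul_le_mul_of_nonneg_left hT2 hK

end Pool.Agent.H42.KC
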