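import Pool.Agent.H14.NP.LargeP
import Pool.Agent.H42.KC.Defs

/-!
# The obstruction inequality
-/

set_option autoImplicit false

namespace Pool.Agent.H42.KC

open Finset Pool.Agent.H14.NP
open scoped ENNReal

variable {𝕜 : Type*} [RCLike 𝕜] {E : Type*} [NormedAddCommGroup E] [NormedSpace 𝕜 E]

/-- The combined kernel vectors. -/
noncomputable def uv (𝕜 : Type*) [RCLike 𝕜] (r : ℕ) (A : Finset (JJ r)) (i : Cube r) : JJ r → 𝕜 :=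
  ∑ i', ((Fr r A i' i : ℝ) : 𝕜) • vf 𝕜 r i'

lemma toLp_sum_vf (p : ℝ≥0∞) [Fact (1 ≤ p)] (r : ℕ) (a : Cube r → 𝕜) :
    (WithLp.toLp p (∑ i', a i' • vf 𝕜 r i') : PiLp p (fun _ : JJ r => 𝕜)) =
      vL p 𝕜 r (WithLp.toLp p a) := by
  rw [vL_eq]

lemma norm_row_le (r : ℕ) (hr : 0 < r) (A : Finset (JJ r)) (i : Cube r) :
    ‖(WithLp.toLp 2 (uv 𝕜 r A i) : PiLp 2 (fun _ : JJ r => 𝕜))‖ ≤ 2 := by
  rw [uv, toLp_sum_vf]
  refine ((vL 2 𝕜 r).le_opNorm _).trans ?_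
  set a : Cube r → 𝕜 := fun i' => ((Fr r A i' i : ℝ) : 𝕜) with ha
  have e8 : ‖(WithLp.toLp 2 a : PiLp 2 (fun _ : Cube r => 𝕜))‖ ≤ 1 := by
    have e9 : ‖(WithLp.toLp 2 a : PiLp 2 (fun _ : Cube r => 𝕜))‖ ^ 2 ≤ 1 := by
      rw [EuclideanSpace.norm_sq_eq]
      calc ∑ i', ‖a i'‖ ^ 2 ≤ ∑ i', Xm r i i' := by
            refine Finset.sum_le_sum fun i' _ => ?_
            rw [ha]
            simp only
            rw [RCLike.norm_ofReal]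
            have e10 := abs_Fr_le r A i' i
            have e11 : Xm r i i' ≤ 1 := by
              rw [← Xm_row_sum r hr i]
              exact Finset.single_le_sum (f := fun i' => Xm r i i') (fun k _ => Xm_nonneg r i k)
                (Finset.mem_univ i')
            have e12 := Xm_nonneg r i i'
            nlinarith [abs_nonneg (Fr r A i' i)]
        _ = 1 := Xm_row_sum r hr i
    nlinarith [norm_nonneg (WithLp.toLp 2 a : PiLp 2 (fun _ : Cube r => 𝕜))]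
  calc ‖vL 2 𝕜 r‖ * ‖(WithLp.toLp 2 a : PiLp 2 (fun _ : Cube r => 𝕜))‖ ≤ 2 * 1 := by
        gcongr
        exact norm_vL_le 2 r hr
    _ = 2 := by norm_num

lemma norm_signs_le (p : ℝ≥0∞) [hp1 : Fact (1 ≤ p)] (hp : 0 < p.toReal) (r : ℕ) (hr : 0 < r)
    (A : Finset (JJ r)) (g : Cube r → Bool) :
    ‖(WithLp.toLp p (∑ i, ((sg (g i) : ℝ) : 𝕜) • uv 𝕜 r A i) : PiLp p (fun _ : JJ r => 𝕜))‖ ≤
      2 * (2 ^ r : ℝ) ^ (1 / p.toReal) := by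
  set b : Cube r → 𝕜 := fun i' => ((∑ i, sg (g i) * Fr r A i' i : ℝ) : 𝕜) with hb
  have h1 : ∑ i, ((sg (g i) : ℝ) : 𝕜) • uv 𝕜 r A i = ∑ i', b i' • vf 𝕜 r i' := by
    simp only [uv, smul_sum]
    rw [sum_comm]
    refine sum_congr rfl fun i' _ => ?_
    rw [hb]
    simp only [smul_smul]
    rw [← sum_smul]
    push_cast
    rfl
  rw [h1, toLp_sum_vf]
  refine ((vL p 𝕜 r).le_opNorm _).trans ?_
  have h2 : ∀ i', ‖b i'‖ ≤ 1 := by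
    intro i'
    rw [hb]
    simp only
    rw [RCLike.norm_ofReal]
    refine (abs_sum_le_sum_abs _ _).trans ?_
    rw [← Xm_col_sum r hr i']
    refine sum_le_sum fun i _ => ?_
    rw [abs_mul, abs_sg, one_mul]
    exact abs_Fr_le r A i' i
  have h3 : ‖(WithLp.toLp p b : PiLp p (fun _ : Cube r => 𝕜))‖ ≤ (2 ^ r : ℝ) ^ (1 / p.toReal) := by
    rw [PiLp.norm_eq_sum hp]
    refine Real.rpow_le_rpow (sum_nonneg fun i _ => Real.rpow_nonneg (norm_nonneg _) _) ?_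
      (by positivity)
    calc ∑ i', ‖b i'‖ ^ p.toReal ≤ ∑ _i' : Cube r, (1 : ℝ) := sum_le_sum fun i' _ =>
          Real.rpow_le_one (norm_nonneg _) (h2 i') hp.le
      _ = 2 ^ r := by simp
  gcongr
  exact norm_vL_le p r hr

/-- The obstruction inequality. -/
theorem obstruction {p : ℝ≥0∞} [hp1 : Fact (1 ≤ p)] (hp : 0 < p.toReal) (r : ℕ) (hr : 0 < r)
    (A : Finset (JJ r)) (hA : A.card = 2 ^ r) (Ψ : Cube r → E →L[𝕜] 𝕜)
    (γ : (Cube r → 𝕜) →ₗ[𝕜] E) (hΨ : ∀ i a, Ψ i (γ a) = a i)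
    (R2 : PiLp p (fun _ : JJ r => 𝕜) →L[𝕜] E) (R3 : PiLp 2 (fun _ : JJ r => 𝕜) →L[𝕜] E)
    (Λ w κ : ℝ) (hΛ : 0 ≤ Λ) (hw : 0 ≤ w) (h2 : ‖R2‖ ≤ κ) (h3 : ‖R3‖ ≤ κ)
    (hrel : ∀ i', (Λ : 𝕜) • (R2 (WithLp.toLp p (vf 𝕜 r i')) +
      (w : 𝕜) • R3 (WithLp.toLp 2 (vf 𝕜 r i'))) = γ (Fv 𝕜 r A i'))
    (B1 B2 : ℝ) (hB1 : ∑ g : Cube r → Bool, ‖∑ i, ((sg (g i) : ℝ) : 𝕜) • Ψ i‖ ≤
      (Fintype.card (Cube r → Bool) : ℝ) * B1) (hB2 : ∑ i, ‖Ψ i‖ ≤ 2 ^ r * B2) :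
    (2 : ℝ) ^ r / (8 * r ^ 2) ≤
      Λ * (κ * (2 * (2 ^ r : ℝ) ^ (1 / p.toReal)) * B1 + w * (κ * 2 * (2 ^ r * B2))) := by
  classical
  have hκ0 : 0 ≤ κ := (norm_nonneg _).trans h2
  set D : ℝ := ∑ i', ∑ i, Fr r A i' i ^ 2 with hD
  have hD1 : (2 : ℝ) ^ r / (8 * r ^ 2) ≤ D := mixing r hr A hA
  -- linearity
  have hv : ∀ i, uv 𝕜 r A i = ∑ i', ((Fr r A i' i : ℝ) : 𝕜) • vf 𝕜 r i' := fun i => rfl
  have e1 : ∀ i, (Λ : 𝕜) • (R2 (WithLp.toLp p (uv 𝕜 r A i)) +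
      (w : 𝕜) • R3 (WithLp.toLp 2 (uv 𝕜 r A i))) =
      ∑ i', ((Fr r A i' i : ℝ) : 𝕜) • γ (Fv 𝕜 r A i') := by
    intro i
    let L : (JJ r → 𝕜) →ₗ[𝕜] E := (Λ : 𝕜) • (R2.toLinearMap.comp (toLpL 𝕜 p (JJ r)) +
      (w : 𝕜) • R3.toLinearMap.comp (toLpL 𝕜 2 (JJ r)))
    have hL : ∀ a, L a = (Λ : 𝕜) • (R2 (WithLp.toLp p a) + (w : 𝕜) • R3 (WithLp.toLp 2 a)) :=
      fun a => rfl
    rw [← hL, hv, map_sum]
    refine sum_congr rfl fun i' _ => ?_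
    rw [map_smul, hL, hrel]
  have e2 : ((D : ℝ) : 𝕜) = (Λ : 𝕜) * (∑ i, Ψ i (R2 (WithLp.toLp p (uv 𝕜 r A i))) +
      (w : 𝕜) * ∑ i, Ψ i (R3 (WithLp.toLp 2 (uv 𝕜 r A i)))) := by
    have e3 : ∀ i, Ψ i ((Λ : 𝕜) • (R2 (WithLp.toLp p (uv 𝕜 r A i)) +
        (w : 𝕜) • R3 (WithLp.toLp 2 (uv 𝕜 r A i)))) = ∑ i', ((Fr r A i' i ^ 2 : ℝ) : 𝕜) := by
      intro i
      rw [e1, map_sum]
      refine sum_congr rfl fun i' _ => ?_
      rw [map_smul, hΨ, Fv_eq, smul_eq_mul]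
      push_cast
      ring
    have e4 : ((D : ℝ) : 𝕜) = ∑ i, ∑ i', ((Fr r A i' i ^ 2 : ℝ) : 𝕜) := by
      rw [hD, sum_comm]
      push_cast
      rfl
    rw [e4, mul_sum, ← sum_add_distrib, mul_sum]
    refine sum_congr rfl fun i _ => ?_
    rw [← e3 i, map_smul, map_add, map_smul]
    simp only [smul_eq_mul]
  -- first term
  have t1 : ‖∑ i, Ψ i (R2 (WithLp.toLp p (uv 𝕜 r A i)))‖ ≤
      κ * (2 * (2 ^ r : ℝ) ^ (1 / p.toReal)) * B1 := by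
    let mm : Cube r → Cube r → 𝕜 := fun i j => Ψ i (R2 (WithLp.toLp p (uv 𝕜 r A j)))
    have f1 := sum_sign_bilin mm
    have f2 : ∀ g : Cube r → Bool, ∑ i, ∑ j, (sg (g i) : 𝕜) * (sg (g j) : 𝕜) * mm i j =
        (∑ i, ((sg (g i) : ℝ) : 𝕜) • Ψ i)
          (R2 (WithLp.toLp p (∑ j, ((sg (g j) : ℝ) : 𝕜) • uv 𝕜 r A j))) := by
      intro g
      have f3 : R2 (WithLp.toLp p (∑ j, ((sg (g j) : ℝ) : 𝕜) • uv 𝕜 r A j)) =
          ∑ j, ((sg (g j) : ℝ) : 𝕜) • R2 (WithLp.toLp p (uv 𝕜 r A j)) := by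
        let L : (JJ r → 𝕜) →ₗ[𝕜] E := R2.toLinearMap.comp (toLpL 𝕜 p (JJ r))
        have hL : ∀ a, L a = R2 (WithLp.toLp p a) := fun a => rfl
        rw [← hL, map_sum]
        exact sum_congr rfl fun j _ => by rw [map_smul, hL]
      rw [f3, _root_.sum_apply]
      refine sum_congr rfl fun i _ => ?_
      rw [_root_.smul_apply, map_sum, smul_sum]
      refine sum_congr rfl fun j _ => ?_
      rw [map_smul, smul_eq_mul, smul_eq_mul]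
      ring
    have f4 : ‖(2 : 𝕜) ^ Fintype.card (Cube r) * ∑ i, mm i i‖ ≤
        (Fintype.card (Cube r → Bool) : ℝ) * (κ * (2 * (2 ^ r : ℝ) ^ (1 / p.toReal)) * B1) := by
      rw [← f1]
      refine (norm_sum_le _ _).trans ?_
      calc ∑ g : Cube r → Bool, ‖∑ i, ∑ j, (sg (g i) : 𝕜) * (sg (g j) : 𝕜) * mm i j‖
          ≤ ∑ g : Cube r → Bool, ‖∑ i, ((sg (g i) : ℝ) : 𝕜) • Ψ i‖ *
            (κ * (2 * (2 ^ r : ℝ) ^ (1 / p.toReal))) := by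
            refine sum_le_sum fun g _ => ?_
            rw [f2]
            refine (ContinuousLinearMap.le_opNorm _ _).trans ?_
            gcongr
            refine (R2.le_opNorm _).trans ?_
            exact mul_le_mul h2 (norm_signs_le p hp r hr A g) (norm_nonneg _) hκ0
        _ = (∑ g : Cube r → Bool, ‖∑ i, ((sg (g i) : ℝ) : 𝕜) • Ψ i‖) *
            (κ * (2 * (2 ^ r : ℝ) ^ (1 / p.toReal))) := by rw [sum_mul]
        _ ≤ ((Fintype.card (Cube r → Bool) : ℝ) * B1) *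
            (κ * (2 * (2 ^ r : ℝ) ^ (1 / p.toReal))) := by gcongr
        _ = _ := by ring
    have hc : (Fintype.card (Cube r → Bool) : ℝ) = 2 ^ Fintype.card (Cube r) := by
      rw [Fintype.card_fun, Fintype.card_bool]
      push_cast
      rfl
    rw [norm_mul, norm_pow, RCLike.norm_ofNat, hc] at f4
    exact le_of_mul_le_mul_left f4 (by positivity)
  -- second term
  have t2 : ‖∑ i, Ψ i (R3 (WithLp.toLp 2 (uv 𝕜 r A i)))‖ ≤ κ * 2 * (2 ^ r * B2) := by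
    refine (norm_sum_le _ _).trans ?_
    calc ∑ i, ‖Ψ i (R3 (WithLp.toLp 2 (uv 𝕜 r A i)))‖ ≤ ∑ i, ‖Ψ i‖ * (κ * 2) := by
          refine sum_le_sum fun i _ => ?_
          refine (ContinuousLinearMap.le_opNorm _ _).trans ?_
          gcongr
          refine (R3.le_opNorm _).trans ?_
          exact mul_le_mul h3 (norm_row_le r hr A i) (norm_nonneg _) hκ0
      _ = (∑ i, ‖Ψ i‖) * (κ * 2) := by rw [sum_mul]
      _ ≤ (2 ^ r * B2) * (κ * 2) := by gcongr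
      _ = _ := by ring
  have hD0 : 0 ≤ D := sum_nonneg fun i' _ => sum_nonneg fun i _ => sq_nonneg _
  calc (2 : ℝ) ^ r / (8 * r ^ 2) ≤ D := hD1
    _ = ‖((D : ℝ) : 𝕜)‖ := by rw [RCLike.norm_ofReal, abs_of_nonneg hD0]
    _ ≤ Λ * (‖∑ i, Ψ i (R2 (WithLp.toLp p (uv 𝕜 r A i)))‖ +
        w * ‖∑ i, Ψ i (R3 (WithLp.toLp 2 (uv 𝕜 r A i)))‖) := by
        rw [e2, norm_mul, RCLike.norm_ofReal, abs_of_nonneg hΛ]
        gcongr
        refine (norm_add_le _ _).trans ?_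
        rw [norm_mul, RCLike.norm_ofReal, abs_of_nonneg hw]
    _ ≤ _ := by gcongr

end Pool.Agent.H42.KC
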