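import Pool.Agent.H42.KC.Defs

/-!
# `ℓ_p^n`'s in the tails of a basis
-/

set_option autoImplicit false

namespace Pool.Agent.H42.KC

open Filter Topology Pool.Agent.H14.NP
open scoped ENNReal

variable {𝕜 : Type*} [RCLike 𝕜] {E : Type*} [NormedAddCommGroup E] [NormedSpace 𝕜 E]
variable {p : ℝ≥0∞} [hp1 : Fact (1 ≤ p)]

/-- The operator given by a family of vectors. -/
theorem ContainsEll.exists_op (h : ContainsEll 𝕜 E p) : ∃ C : ℝ, 0 ≤ C ∧ ∀ n : ℕ,
    ∃ i : PiLp p (fun _ : Fin n => 𝕜) →L[𝕜] E, (∀ x, ‖x‖ ≤ ‖i x‖) ∧ ‖i‖ ≤ C := by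
  obtain ⟨C, hC⟩ := h
  refine ⟨max C 0, le_max_right _ _, fun n => ?_⟩
  obtain ⟨z, hz⟩ := hC n
  let i : PiLp p (fun _ : Fin n => 𝕜) →L[𝕜] E := LinearMap.mkContinuous
    { toFun := fun a => ∑ j, a j • z j
      map_add' := fun a b => by
        rw [← Finset.sum_add_distrib]
        exact Finset.sum_congr rfl fun j _ => by rw [PiLp.add_apply, add_smul]
      map_smul' := fun c a => by
        rw [RingHom.id_apply, Finset.smul_sum]
        exact Finset.sum_congr rfl fun j _ => by rw [PiLp.smul_apply, smul_eq_mul, mul_smul] }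
    (max C 0) (fun a => by
      refine (hz a).2.trans ?_
      gcongr
      exact le_max_left _ _)
  exact ⟨i, fun x => (hz x).1, LinearMap.mkContinuous_norm_le _ (le_max_right _ _) _⟩

/-- The tail lemma. -/
theorem ContainsEll.tail (h : ContainsEll 𝕜 E p) (P : ℕ → E →L[𝕜] E) (CP : ℝ)
    (hPC : ∀ n, ‖P n‖ ≤ CP) (hPP : ∀ n m v, P n (P m v) = P (min n m) v)
    (hPt : ∀ v, Tendsto (fun n => P n v) atTop (𝓝 v))
    (hPf : ∀ n, ∃ V : Submodule 𝕜 E, FiniteDimensional 𝕜 V ∧ ∀ v, P n v ∈ V) :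
    ∃ C : ℝ, 0 ≤ C ∧ ∀ n : ℕ, TailSub P C (PiLp p (fun _ : Fin n => 𝕜)) := by
  classical
  obtain ⟨C, hC0, hC⟩ := h.exists_op
  have hCP0 : 0 ≤ CP := (norm_nonneg _).trans (hPC 0)
  refine ⟨2 * (2 * CP * (2 * C)), by positivity, fun n k => ?_⟩
  set δ : ℝ := 1 / (4 * (n + 1)) with hδ
  have hδ0 : 0 < δ := by positivity
  have hnδ : n * δ ≤ 1 / 4 := by
    rw [hδ, mul_one_div, div_le_div_iff₀ (by positivity) (by norm_num)]
    nlinarith
  obtain ⟨V, hVf, hV⟩ := hPf k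
  obtain ⟨n', hn'⟩ := exists_close (V := V) (CP * C) δ hδ0 (n + n)
  obtain ⟨i, hilow, hi⟩ := hC n'
  have hsingle : ∀ {m : ℕ} (t : Fin m),
      ‖(PiLp.single p t (1 : 𝕜) : PiLp p (fun _ : Fin m => 𝕜))‖ = 1 := by
    intro m t
    rw [PiLp.norm_single]
    simp
  obtain ⟨f, hf, hfc⟩ := hn' (fun j => P k (i (PiLp.single p j 1))) (fun j => hV _) (fun j => by
    calc ‖P k (i (PiLp.single p j 1))‖ ≤ ‖P k‖ * ‖i (PiLp.single p j 1)‖ := (P k).le_opNorm _
      _ ≤ CP * (C * 1) := by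
          refine mul_le_mul (hPC k) ?_ (norm_nonneg _) hCP0
          refine (i.le_opNorm _).trans ?_
          rw [hsingle]
          gcongr
      _ = CP * C := by ring)
  let a : Fin n → Fin n' := fun t => f (Fin.castAdd n t)
  let b : Fin n → Fin n' := fun t => f (Fin.natAdd n t)
  have ha : Function.Injective a := hf.comp (Fin.castAdd_injective n n)
  have hb : Function.Injective b := hf.comp (Fin.natAdd_injective n n)
  have hab : ∀ s t, a s ≠ b t := by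
    intro s t hst
    have := hf hst
    have h1 := congrArg Fin.val this
    simp at h1
    have := s.2
    omega
  let J : PiLp p (fun _ : Fin n => 𝕜) →L[𝕜] PiLp p (fun _ : Fin n' => 𝕜) :=
    extendL 𝕜 p a ha - extendL 𝕜 p b hb
  have hJlow : ∀ x, ‖x‖ ≤ ‖J x‖ := by
    intro x
    have h1 : restrictL 𝕜 p a ha (J x) = x := by
      ext t
      rw [restrictL_apply]
      have h2 : (J x) (a t) = extendL 𝕜 p a ha x (a t) - extendL 𝕜 p b hb x (a t) := rfl
      rw [h2, extendL_apply, extendL_apply' p b hb x (a t) (by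
        rintro ⟨s, hs⟩; exact hab t s hs.symm), sub_zero]
    calc ‖x‖ = ‖restrictL 𝕜 p a ha (J x)‖ := by rw [h1]
      _ ≤ ‖restrictL 𝕜 p a ha‖ * ‖J x‖ := ContinuousLinearMap.le_opNorm _ _
      _ ≤ 1 * ‖J x‖ := by gcongr; exact norm_restrictL_le p a ha
      _ = ‖J x‖ := one_mul _
  have hJn : ‖J‖ ≤ 2 := by
    calc ‖J‖ ≤ ‖extendL 𝕜 p a ha‖ + ‖extendL 𝕜 p b hb‖ := norm_sub_le _ _
      _ ≤ 1 + 1 := add_le_add (norm_extendL_le p a ha) (norm_extendL_le p b hb)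
      _ = 2 := by norm_num
  have hJs : ∀ t, J (PiLp.single p t 1) = PiLp.single p (a t) 1 - PiLp.single p (b t) 1 := by
    intro t
    have hext : ∀ (c : Fin n → Fin n') (hc : Function.Injective c),
        extendL 𝕜 p c hc (PiLp.single p t 1) = PiLp.single p (c t) 1 := by
      intro c hc
      ext r
      by_cases hr : ∃ s, c s = r
      · obtain ⟨s, rfl⟩ := hr
        rw [extendL_apply]
        by_cases hst : s = t
        · subst hst; simp
        · have : c s ≠ c t := fun h => hst (hc h)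
          simp [hst, this]
      · rw [extendL_apply' p c hc _ r hr]
        have : r ≠ c t := fun h => hr ⟨t, h.symm⟩
        simp [this]
    change extendL 𝕜 p a ha (PiLp.single p t 1) - extendL 𝕜 p b hb (PiLp.single p t 1) = _
    rw [hext, hext]
  let i1 : PiLp p (fun _ : Fin n => 𝕜) →L[𝕜] E := i.comp J
  have hi1 : ‖i1‖ ≤ 2 * C := by
    calc ‖i1‖ ≤ ‖i‖ * ‖J‖ := ContinuousLinearMap.opNorm_comp_le _ _
      _ ≤ C * 2 := mul_le_mul hi hJn (norm_nonneg _) hC0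
      _ = 2 * C := mul_comm _ _
  have hi1low : ∀ x, ‖x‖ ≤ ‖i1 x‖ := fun x => (hJlow x).trans (hilow _)
  have hPk : ∀ x, ‖P k (i1 x)‖ ≤ n * δ * ‖x‖ := by
    intro x
    refine norm_apply_le_sum ((P k).comp i1) δ (fun t => ?_) x
    change ‖P k (i (J (PiLp.single p t 1)))‖ ≤ δ
    rw [hJs, map_sub, map_sub]
    exact hfc (Fin.castAdd n t) (Fin.natAdd n t)
  have hl : ∃ l, k ≤ l ∧ ∀ t : Fin n,
      ‖i1 (PiLp.single p t 1) - P l (i1 (PiLp.single p t 1))‖ ≤ δ := by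
    have h1 : ∀ t : Fin n, ∀ᶠ l in atTop, ‖i1 (PiLp.single p t 1) -
        P l (i1 (PiLp.single p t 1))‖ ≤ δ := by
      intro t
      have := (tendsto_const_nhds (x := i1 (PiLp.single p t 1))).sub (hPt (i1 (PiLp.single p t 1)))
      rw [sub_self] at this
      have h2 := this.norm
      rw [norm_zero] at h2
      exact h2.eventually (eventually_le_nhds hδ0)
    have h2 := (eventually_all.2 h1).and (eventually_ge_atTop k)
    obtain ⟨l, hl1, hl2⟩ := h2.exists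
    exact ⟨l, hl2, hl1⟩
  obtain ⟨l, hkl, hl⟩ := hl
  have hPl : ∀ x, ‖i1 x - P l (i1 x)‖ ≤ n * δ * ‖x‖ := by
    intro x
    refine norm_apply_le_sum (i1 - (P l).comp i1) δ (fun t => ?_) x
    exact hl t
  let Q : E →L[𝕜] E := P l - P k
  have hQ : ∀ v, Q v = P l v - P k v := fun v => rfl
  have hQn : ‖Q‖ ≤ 2 * CP := by
    calc ‖Q‖ ≤ ‖P l‖ + ‖P k‖ := norm_sub_le _ _
      _ ≤ CP + CP := add_le_add (hPC l) (hPC k)
      _ = 2 * CP := by ring
  have hPlQ : ∀ v, P l (Q v) = Q v := by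
    intro v
    rw [hQ, map_sub, hPP, hPP, min_self, min_eq_right hkl]
  have hPkQ : ∀ v, P k (Q v) = 0 := by
    intro v
    rw [hQ, map_sub, hPP, hPP, min_self, min_eq_left hkl, sub_self]
  have h2n : ‖(2 : 𝕜)‖ = 2 := RCLike.norm_ofNat 2
  refine ⟨l, (2 : 𝕜) • Q.comp i1, hkl, ?_, ?_, ?_, ?_⟩
  · intro x
    change P l ((2 : 𝕜) • Q (i1 x)) = (2 : 𝕜) • Q (i1 x)
    rw [map_smul, hPlQ]
  · intro x
    change P k ((2 : 𝕜) • Q (i1 x)) = 0
    rw [map_smul, hPkQ, smul_zero]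
  · intro x
    change ‖x‖ ≤ ‖(2 : 𝕜) • Q (i1 x)‖
    rw [norm_smul, h2n]
    have h1 : i1 x = Q (i1 x) + ((i1 x - P l (i1 x)) + P k (i1 x)) := by rw [hQ]; abel
    have h3 : ‖i1 x‖ ≤ ‖Q (i1 x)‖ + (n * δ * ‖x‖ + n * δ * ‖x‖) := by
      conv_lhs => rw [h1]
      refine (norm_add_le _ _).trans (add_le_add le_rfl ((norm_add_le _ _).trans ?_))
      exact add_le_add (hPl x) (hPk x)
    have h4 := hi1low x
    have h5 : n * δ * ‖x‖ ≤ 1 / 4 * ‖x‖ := by gcongr
    linarith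
  · rw [norm_smul, h2n]
    gcongr
    calc ‖Q.comp i1‖ ≤ ‖Q‖ * ‖i1‖ := ContinuousLinearMap.opNorm_comp_le _ _
      _ ≤ 2 * CP * (2 * C) := mul_le_mul hQn hi1 (norm_nonneg _) (by positivity)

/-- Arbitrary finite index sets. -/
theorem TailSub.reindex {P : ℕ → E →L[𝕜] E} {C : ℝ}
    (h : ∀ n : ℕ, TailSub P C (PiLp p (fun _ : Fin n => 𝕜))) (ι : Type*) [Fintype ι] :
    TailSub P C (PiLp p (fun _ : ι => 𝕜)) := by
  have e : ι ≃ Fin (Fintype.card ι) := Fintype.equivFin ι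
  let R : PiLp p (fun _ : ι => 𝕜) ≃ₗᵢ[𝕜] PiLp p (fun _ : Fin (Fintype.card ι) => 𝕜) :=
    LinearIsometryEquiv.piLpCongrLeft p 𝕜 𝕜 e
  let R' : PiLp p (fun _ : ι => 𝕜) →L[𝕜] PiLp p (fun _ : Fin (Fintype.card ι) => 𝕜) :=
    R.toContinuousLinearEquiv
  have hR : ∀ x, ‖R' x‖ = ‖x‖ := fun x => R.norm_map x
  have h1 := (h (Fintype.card ι)).comp R' (fun x => (hR x).ge) (D := 1)
    (ContinuousLinearMap.opNorm_le_bound _ zero_le_one fun x => by rw [one_mul, hR x])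
  rwa [mul_one] at h1

end Pool.Agent.H42.KC
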