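import Pool.Agent.H14.NP.SmallP2
import Pool.Agent.H42.KC.Tail
import Pool.Agent.H42.KC.Key

/-!
# Case (a): uniformly complemented `ℓ_2^n`'s and arbitrary `ℓ_p^n`'s, `1 ≤ p < 2`
-/

set_option autoImplicit false

namespace Pool.Agent.H42.KC

open Filter Topology Pool.Agent.H14.NP
open scoped ENNReal

variable {𝕜 : Type*} [RCLike 𝕜] {E : Type*} [NormedAddCommGroup E] [NormedSpace 𝕜 E]

theorem propNP_small [CompleteSpace E] (hE : ∃ e : ℕ → E, IsBasis 𝕜 e)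
    (p : ℝ≥0∞) [hp1 : Fact (1 ≤ p)] (hp2 : p < 2) (h2 : UnifCompl 𝕜 E 2)
    (hp : ContainsEll 𝕜 E p) : PropNP 𝕜 E := by
  classical
  obtain ⟨e, he⟩ := hE
  obtain ⟨P, CP, hPC, hPP, hPt, hPf⟩ := he.exists_proj'
  obtain ⟨C2, hC20, hC2⟩ := h2.tailEmb P CP hPC hPP hPt hPf
  obtain ⟨C3, hC30, hC3⟩ := hp.tail P CP hPC hPP hPt hPf
  have hCP0 : 0 ≤ CP := (norm_nonneg _).trans (hPC 0)
  refine propNP_of_blocks P CP hPC hPP ((2 * C2 + 12 * C3) * (64 * (1 + CP))) fun K k => ?_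
  -- numbers
  have htop : p ≠ ∞ := (lt_trans hp2 ENNReal.ofNat_lt_top).ne
  set s := p.toReal with hs
  have hs1 : 1 ≤ s := by
    rw [hs, ← ENNReal.toReal_one]
    exact (ENNReal.toReal_le_toReal ENNReal.one_ne_top htop).2 hp1.out
  have hs2 : s < 2 := by
    rw [hs, ← ENNReal.toReal_ofNat 2]
    exact (ENNReal.toReal_lt_toReal htop ENNReal.ofNat_ne_top).2 hp2
  obtain ⟨r, hr, hrK⟩ := exists_size s (by linarith) hs2 (C2 * K * C3)
  obtain ⟨N, M, hN, hM1, hM2⟩ := exists_block_matrix 𝕜 r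
  have hNpos : 0 < N := by rw [hN]; positivity
  rw [← hN] at hrK
  have : NeZero N := ⟨hNpos.ne'⟩
  set c : ℝ := (N : ℝ) ^ (-(1 / s)) with hc
  set Z := matL 𝕜 p M c with hZ
  have hZn := fun a : JJ r → 𝕜 => norm_matL p hp2.le M hM1 hM2 a
  -- the pieces
  obtain ⟨l1, i1, q1, hkl1, hq1, hP1, hPk1, hqP1, -, hi1, hqn1⟩ := hC2 (Cube r) k
  obtain ⟨l2, i2, hkl2, hP2, hPk2, hlow2, hi2⟩ := hC3 N l1
  let α : (Cube r → 𝕜) →ₗ[𝕜] E := i1.toLinearMap.comp (toLpL 𝕜 2 (Cube r))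
  let β : (JJ r → 𝕜) →ₗ[𝕜] E := i2.toLinearMap.comp Z
  have hα : ∀ a, α a = i1 (WithLp.toLp 2 a) := fun a => rfl
  have hβ : ∀ a, β a = i2 (Z a) := fun a => rfl
  have hPα : ∀ a, P l1 (α a) = α a := fun a => hP1 _
  have hPα2 : ∀ a, P l2 (α a) = α a := by
    intro a
    rw [← hPα a, hPP, min_eq_right hkl2]
  have hPβ : ∀ a, P l1 (β a) = 0 := fun a => hPk2 _
  have hPkα : ∀ a, P k (α a) = 0 := fun a => hPk1 _
  have hPkβ : ∀ a, P k (β a) = 0 := by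
    intro a
    have h1 := hPP k l1 (β a)
    rw [hPβ, map_zero, min_eq_left hkl1] at h1
    exact h1.symm
  have hPle : ∀ a : JJ r → 𝕜, ‖α (Pf 𝕜 r a)‖ ≤
      2 * C2 * ‖(WithLp.toLp 2 a : PiLp 2 (fun _ : JJ r => 𝕜))‖ := by
    intro a
    rw [hα, ← PL_eq]
    refine (i1.le_opNorm _).trans ?_
    calc ‖i1‖ * ‖PL 2 𝕜 r (WithLp.toLp 2 a)‖ ≤
        C2 * (2 * ‖(WithLp.toLp 2 a : PiLp 2 (fun _ : JJ r => 𝕜))‖) := by
          gcongr
          exact (ContinuousLinearMap.le_opNorm _ _).trans (by gcongr; exact norm_PL_le 2 r hr)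
      _ = _ := by ring
  have hβle : ∀ a : JJ r → 𝕜, ‖β a‖ ≤
      12 * C3 * ‖(WithLp.toLp 2 a : PiLp 2 (fun _ : JJ r => 𝕜))‖ := by
    intro a
    rw [hβ]
    refine (i2.le_opNorm _).trans ?_
    calc ‖i2‖ * ‖Z a‖ ≤ C3 * (12 * ‖(WithLp.toLp 2 a : PiLp 2 (fun _ : JJ r => 𝕜))‖) := by
          gcongr
          exact (hZn a).2
      _ = _ := by ring
  have hlow : ∀ a : JJ r → 𝕜, 1 / 64 * ‖(WithLp.toLp 2 a : PiLp 2 (fun _ : JJ r => 𝕜))‖ ≤
      (1 + CP) * ‖∑ j, a j • yv r α β j‖ := by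
    intro a
    rw [sum_yv]
    have h1 : β a = (α (Pf 𝕜 r a) + β a) - P l1 (α (Pf 𝕜 r a) + β a) := by
      rw [map_add, hPα, hPβ]; abel
    calc 1 / 64 * ‖(WithLp.toLp 2 a : PiLp 2 (fun _ : JJ r => 𝕜))‖ ≤ ‖Z a‖ := (hZn a).1
      _ ≤ ‖β a‖ := hlow2 _
      _ = ‖(α (Pf 𝕜 r a) + β a) - P l1 (α (Pf 𝕜 r a) + β a)‖ := by rw [← h1]
      _ ≤ ‖α (Pf 𝕜 r a) + β a‖ + ‖P l1‖ * ‖α (Pf 𝕜 r a) + β a‖ :=
          (norm_sub_le _ _).trans (add_le_add le_rfl ((P l1).le_opNorm _))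
      _ ≤ ‖α (Pf 𝕜 r a) + β a‖ + CP * ‖α (Pf 𝕜 r a) + β a‖ := by gcongr; exact hPC l1
      _ = _ := by ring
  refine block_nat P _ K k l2 (hkl1.trans hkl2) (2 ^ r) (by positivity)
    (Fintype.equivFinOfCardEq (card_JJ r)) (yv r α β) ?_ ?_ ?_ ?_ ?_
  · intro j
    rw [yv, map_add, hPα2, hβ, hP2]
  · intro j
    rw [yv, map_add, hPkα, hPkβ, add_zero]
  · intro j h0
    have h1 := hlow (Pi.single j 1)
    have h2 : ∑ j', (Pi.single j 1 : JJ r → 𝕜) j' • yv r α β j' = yv r α β j := by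
      rw [Finset.sum_eq_single j]
      · simp
      · intro b _ hb
        simp [hb]
      · intro h
        exact absurd (Finset.mem_univ _) h
    rw [h2, h0, norm_zero] at h1
    have h3 : ‖(WithLp.toLp 2 (Pi.single j (1 : 𝕜)) : PiLp 2 (fun _ : JJ r => 𝕜))‖ = 1 := by
      have := PiLp.norm_single (p := 2) (β := fun _ : JJ r => 𝕜) j (1 : 𝕜)
      rw [norm_one] at this
      exact this
    rw [h3] at h1
    norm_num at h1
  · intro a t
    rw [sum_yv_finset]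
    have h1 := norm_restrict_set_le 2 a t
    have h2 := hPle (fun j => if j ∈ t then a j else 0)
    have h3 := hβle (fun j => if j ∈ t then a j else 0)
    have h4 := hlow a
    have h0 := norm_nonneg (WithLp.toLp 2 a : PiLp 2 (fun _ : JJ r => 𝕜))
    calc ‖α (Pf 𝕜 r (fun j => if j ∈ t then a j else 0)) + β (fun j => if j ∈ t then a j else 0)‖
        ≤ 2 * C2 * ‖(WithLp.toLp 2 (fun j => if j ∈ t then a j else 0) :
            PiLp 2 (fun _ : JJ r => 𝕜))‖ +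
          12 * C3 * ‖(WithLp.toLp 2 (fun j => if j ∈ t then a j else 0) :
            PiLp 2 (fun _ : JJ r => 𝕜))‖ := (norm_add_le _ _).trans (add_le_add h2 h3)
      _ ≤ 2 * C2 * ‖(WithLp.toLp 2 a : PiLp 2 (fun _ : JJ r => 𝕜))‖ +
          12 * C3 * ‖(WithLp.toLp 2 a : PiLp 2 (fun _ : JJ r => 𝕜))‖ := by gcongr
      _ = (2 * C2 + 12 * C3) * (64 * (1 / 64 *
          ‖(WithLp.toLp 2 a : PiLp 2 (fun _ : JJ r => 𝕜))‖)) := by ring
      _ ≤ (2 * C2 + 12 * C3) * (64 * ((1 + CP) * ‖∑ j, a j • yv r α β j‖)) := by gcongr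
      _ = _ := by ring
  · intro A hA T hT
    by_contra hlt
    push Not at hlt
    -- the operator on the second part
    have hkey := fun i' => key_rel r α β (toLpL 𝕜 2 (Cube r)) A (q1.comp T).toLinearMap
      (fun j => by
        change q1 (T (yv r α β j)) = _
        rw [hT]
        split_ifs
        · rw [yv, map_add, hα, hq1]
          have h1 := hqP1 (β (Pi.single j 1))
          rw [hPβ, map_zero] at h1
          rw [← h1, add_zero]
          rfl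
        · rw [map_zero]) i'
    let R : PiLp p (fun _ : Fin N => 𝕜) →L[𝕜] PiLp 2 (fun _ : Cube r => 𝕜) :=
      (q1.comp T).comp i2
    have hK0 : 0 ≤ K := (norm_nonneg T).trans hlt.le
    have hRn : ‖R‖ ≤ C2 * K * C3 := by
      calc ‖R‖ ≤ ‖q1.comp T‖ * ‖i2‖ := ContinuousLinearMap.opNorm_comp_le _ _
        _ ≤ (C2 * K) * C3 := by
            refine mul_le_mul ?_ hi2 (norm_nonneg _) (by positivity)
            exact (ContinuousLinearMap.opNorm_comp_le _ _).trans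
              (mul_le_mul hqn1 hlt.le (norm_nonneg _) hC20)
    have h1 : (2 : ℝ) ^ r / (8 * r ^ 2) ≤ ∑ i', ‖R (Z (vf 𝕜 r i'))‖ ^ 2 := by
      refine (sum_norm_Fv (𝕜 := 𝕜) r hr A hA).trans (le_of_eq ?_)
      refine Finset.sum_congr rfl fun i' _ => ?_
      have h2 : R (Z (vf 𝕜 r i')) = toLpL 𝕜 2 (Cube r) (Fv 𝕜 r A i') := hkey i'
      rw [h2]
      rfl
    have h2 := obstruction_small p r hr M c hM1 R
    have h3 : ‖R‖ ^ 2 ≤ (C2 * K * C3) ^ 2 := pow_le_pow_left₀ (norm_nonneg _) hRn 2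
    have h4 : 576 * (N : ℝ) * c ^ 2 * (N * ‖R‖ ^ 2) ≤
        576 * N * c ^ 2 * (N * (C2 * K * C3) ^ 2) := by gcongr
    linarith

end Pool.Agent.H42.KC
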