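import Pool.Agent.H42.KC.Tail
import Pool.Agent.H42.KC.Key
import Pool.Agent.H42.KC.Lifts
import Pool.Agent.H42.KC.Obst
import Pool.Agent.H42.KC.Numeric
import Pool.Agent.H14.NP.UnifTwo

/-!
# Case (b): `ℓ_q^n`'s with `q > 2`
-/

set_option autoImplicit false

namespace Pool.Agent.H42.KC

open Filter Topology Pool.Agent.H14.NP
open scoped ENNReal

variable {𝕜 : Type*} [RCLike 𝕜] {E : Type*} [NormedAddCommGroup E] [NormedSpace 𝕜 E]

theorem exists_field (N : ℕ) (hN : N ≠ 0) : ∃ (F : Type) (_ : Field F) (_ : Fintype F),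
    Fintype.card F = 2 ^ N := by
  have : Fact (Nat.Prime 2) := ⟨Nat.prime_two⟩
  letI iF : Fintype (GaloisField 2 N) := Fintype.ofFinite _
  refine ⟨GaloisField 2 N, inferInstance, iF, ?_⟩
  rw [← Nat.card_eq_fintype_card]
  exact GaloisField.card 2 N hN

/-- Euclidean spaces in the tails. -/
theorem two_tail {P : ℕ → E →L[𝕜] E} {C : ℝ} {p : ℝ≥0∞} [hp1 : Fact (1 ≤ p)] (h1 : 1 < p)
    (htop : p ≠ ∞) (h : ∀ n : ℕ, TailSub P C (PiLp p (fun _ : Fin n => 𝕜))) :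
    ∃ C' : ℝ, ∀ n : ℕ, TailSub P C' (PiLp 2 (fun _ : Fin n => 𝕜)) := by
  set D1 := kc p.toReal ^ (1 / p.toReal) with hD1
  set D2 := kc (Real.conjExponent p.toReal) ^ (1 / Real.conjExponent p.toReal) with hD2
  have hD20 : 0 ≤ D2 := Real.rpow_nonneg (kc_pos _).le _
  refine ⟨C * (D2 * D1), fun n => ?_⟩
  obtain ⟨i, q, hqi, hi, hq⟩ := exists_rademacher (𝕜 := 𝕜) h1 htop n
  have hn : ‖(D2 : 𝕜)‖ = D2 := by rw [RCLike.norm_ofReal, abs_of_nonneg hD20]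
  refine (TailSub.reindex h (Fin n → Bool)).comp ((D2 : 𝕜) • i) (fun x => ?_) ?_
  · change ‖x‖ ≤ ‖(D2 : 𝕜) • i x‖
    rw [norm_smul, hn]
    calc ‖x‖ = ‖q (i x)‖ := by rw [hqi]
      _ ≤ ‖q‖ * ‖i x‖ := q.le_opNorm _
      _ ≤ D2 * ‖i x‖ := by gcongr
  · rw [norm_smul, hn]
    gcongr

/-- Multiplication by signs on `ℓ_p`. -/
noncomputable def sgnL (𝕜 : Type*) [RCLike 𝕜] (p : ℝ≥0∞) {Ω : Type*} (θ : Ω → Bool) :
    PiLp p (fun _ : Ω => 𝕜) →ₗ[𝕜] PiLp p (fun _ : Ω => 𝕜) where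
  toFun x := WithLp.toLp p fun c => ((sg (θ c) : ℝ) : 𝕜) * x c
  map_add' x y := by
    ext c
    change ((sg (θ c) : ℝ) : 𝕜) * (x + y) c = _ * x c + _ * y c
    rw [PiLp.add_apply, mul_add]
  map_smul' z x := by
    ext c
    change ((sg (θ c) : ℝ) : 𝕜) * (z • x) c = z * (_ * x c)
    rw [PiLp.smul_apply, smul_eq_mul]
    ring

lemma norm_sgnL {p : ℝ≥0∞} [hp1 : Fact (1 ≤ p)] (hp : 0 < p.toReal) {Ω : Type*} [Fintype Ω]
    (θ : Ω → Bool) (x : PiLp p (fun _ : Ω => 𝕜)) : ‖sgnL 𝕜 p θ x‖ = ‖x‖ := by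
  rw [PiLp.norm_eq_sum hp, PiLp.norm_eq_sum hp]
  congr 1
  refine Finset.sum_congr rfl fun c _ => ?_
  change ‖((sg (θ c) : ℝ) : 𝕜) * x c‖ ^ _ = _
  rw [norm_mul, RCLike.norm_ofReal, abs_sg, one_mul]

theorem propNP_large [CompleteSpace E] (hE : ∃ e : ℕ → E, IsBasis 𝕜 e)
    (p : ℝ≥0∞) [hp1 : Fact (1 ≤ p)] (hp2 : 2 < p) (htop : p ≠ ∞) (hp : ContainsEll 𝕜 E p)
    (htype : ∀ s : ℝ, 1 ≤ s → s < p.toReal / (p.toReal - 1) → HasType (E →L[𝕜] 𝕜) s) :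
    PropNP 𝕜 E := by
  classical
  -- exponents
  set q := p.toReal with hqdef
  have hq2 : 2 < q := by
    rw [hqdef, ← ENNReal.toReal_ofNat 2]
    exact (ENNReal.toReal_lt_toReal ENNReal.ofNat_ne_top htop).2 hp2
  have hq0 : 0 < q := by linarith
  set k : ℕ := ⌈q⌉₊ with hk
  have hqk : q ≤ k := Nat.le_ceil q
  have hk1 : 1 ≤ k := by
    have : (1 : ℝ) ≤ k := by linarith
    exact_mod_cast this
  have hkr : (1 : ℝ) ≤ k := by exact_mod_cast hk1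
  have hqk2 : q < 2 * k := by linarith
  have hinv : 1 / q < 1 / 2 := one_div_lt_one_div_of_lt (by norm_num) hq2
  have hinv0 : 0 < 1 / q := by positivity
  set η : ℝ := (1 / 2 - 1 / q) / (12 * k) with hη
  have hη0 : 0 < η := by
    have : 0 < 1 / 2 - 1 / q := by linarith
    positivity
  have hη1 : η ≤ 1 / q := by
    have h1 : η ≤ 1 / (12 * k) := by
      rw [hη]
      gcongr
      linarith
    have h2 : 1 / (12 * (k : ℝ)) ≤ 1 / q := by
      apply one_div_le_one_div_of_le hq0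
      linarith
    exact h1.trans h2
  set s : ℝ := 1 / (1 - 1 / q + η) with hs
  have hden : 0 < 1 - 1 / q + η := by linarith
  have hs1 : 1 / s = 1 - 1 / q + (1 / 2 - 1 / q) / (12 * k) := by rw [hs, one_div_one_div]
  have hs_one : 1 ≤ s := by
    rw [hs, le_div_iff₀ hden]; linarith
  have hs_two : s ≤ 2 := by
    rw [hs, div_le_iff₀ hden]; linarith
  have hs_lt : s < q / (q - 1) := by
    have h1 : q / (q - 1) = 1 / (1 - 1 / q) := by
      field_simp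
    rw [h1, hs]
    apply one_div_lt_one_div_of_lt (by linarith)
    linarith
  obtain ⟨T0, hT0⟩ := htype s hs_one hs_lt
  set T : ℝ := max T0 1 with hTdef
  have hTpos : 0 < T := lt_of_lt_of_le one_pos (le_max_right _ _)
  have hT : ∀ (n : ℕ) (x : Fin n → (E →L[𝕜] 𝕜)),
      (∑ ε : Fin n → Bool, ‖∑ i, (if ε i then x i else -x i)‖) / 2 ^ n ≤
        T * (∑ i, ‖x i‖ ^ s) ^ (1 / s) := by
    intro n x
    refine (hT0 n x).trans ?_
    have : 0 ≤ (∑ i, ‖x i‖ ^ s) ^ (1 / s) :=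
      Real.rpow_nonneg (Finset.sum_nonneg fun i _ => Real.rpow_nonneg (norm_nonneg _) _) _
    gcongr
    exact le_max_left _ _
  -- the basis
  obtain ⟨e, he⟩ := hE
  obtain ⟨P, CP, hPC, hPP, hPt, hPf⟩ := he.exists_proj'
  have hCP0 : 0 ≤ CP := (norm_nonneg _).trans (hPC 0)
  obtain ⟨C3, hC30, hC3⟩ := hp.tail P CP hPC hPP hPt hPf
  obtain ⟨C2, hC2⟩ := two_tail (lt_trans (by norm_num) hp2) htop hC3
  set C := max C2 C3 with hC
  have hC0 : 0 ≤ C := hC30.trans (le_max_right _ _)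
  have hTp : ∀ (ι : Type) [Fintype ι], TailSub P C (PiLp p (fun _ : ι => 𝕜)) := fun ι _ =>
    (TailSub.reindex hC3 ι).mono (le_max_right _ _)
  have hT2 : ∀ (ι : Type) [Fintype ι], TailSub P C (PiLp 2 (fun _ : ι => 𝕜)) := fun ι _ =>
    (TailSub.reindex hC2 ι).mono (le_max_left _ _)
  refine propNP_of_blocks P CP hPC hPP (3 * C * (1 + 3 * CP)) fun K k0 => ?_
  -- sizes
  obtain ⟨n, hn, hnum⟩ := numeric q s hq2 k hk1 hs1 (K0 k) T (CP * |K| * C) (le_max_left _ _)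
    hTpos (by positivity)
  obtain ⟨F, iF1, iF2, hFc⟩ := exists_field (2 * n + 1) (by omega)
  have hGc : Fintype.card (Fin n → ZMod 2) = 2 ^ n := by
    rw [Fintype.card_fun, ZMod.card, Fintype.card_fin]
  have eF : F ≃ (Fin n → ZMod 2) × Bool × (Fin n → ZMod 2) := Fintype.equivOfCardEq (by
    rw [hFc, Fintype.card_prod, Fintype.card_prod, hGc, Fintype.card_bool]
    ring)
  have hr : 0 < 2 * n := by omega
  obtain ⟨x⟩ : Nonempty (Cube (2 * n) ↪ F) := Function.Embedding.nonempty_of_card_le (by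
    rw [hFc, Fintype.card_fun, Fintype.card_bool, Fintype.card_fin]
    exact Nat.pow_le_pow_right (by norm_num) (Nat.le_succ _))
  set ξ : Cube (2 * n) → (Fin (2 * k) → F) → ℝ := fun i c => pk eF (ev (2 * k) x c i) with hξ
  have hS := sys_pk eF k hk1 x.injective
  rw [← hξ] at hS
  set M : ℝ := (Fintype.card (Fin n → ZMod 2) : ℝ) with hM
  set N : ℝ := (Fintype.card (Fin (2 * k) → F) : ℝ) with hN
  have hMe : M = 2 ^ n := by rw [hM, hGc]; push_cast; rfl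
  have hNe : N = (2 ^ (2 * n + 1)) ^ (2 * k) := by
    rw [hN, Fintype.card_fun, hFc, Fintype.card_fin]
    push_cast
    rfl
  have hMpos : 0 < M := hS.M_pos
  have hNpos : 0 < N := by rw [hNe]; positivity
  have hnum' := hnum M N hMe hNe
  have hNM : 0 < N * M⁻¹ := by positivity
  set Λ : ℝ := 2 * (2 * K0 k * ((2 * n : ℕ) : ℝ) + 1) with hΛ
  have hK01 : 1 ≤ K0 k := le_max_left _ _
  have hΛpos : 0 < Λ := by positivity
  set w : ℝ := M ^ (-(1 / 2 - 1 / q)) with hw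
  have hwpos : 0 < w := Real.rpow_pos_of_pos hMpos _
  set c₀ : ℝ := (N * M⁻¹) ^ (-(1 / q)) with hc₀
  set κ₀ : ℝ := (N * M⁻¹) ^ (1 / q - 1) with hκ₀
  have hκpos : 0 < κ₀ := Real.rpow_pos_of_pos hNM _
  have hκc : κ₀ * c₀ * (N * M⁻¹) = 1 := by
    rw [hκ₀, hc₀, ← Real.rpow_add hNM]
    have : 1 / q - 1 + -(1 / q) = -1 := by ring
    rw [this, Real.rpow_neg_one, inv_mul_cancel₀ hNM.ne']
  -- embeddings
  obtain ⟨l1, J1, hkl1, hP1, hPk1, hlow1, hJ1⟩ := hTp (Fin (2 * k) → F) k0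
  obtain ⟨l2, J2, hkl2, hP2, hPk2, hlow2, hJ2⟩ := hTp (JJ (2 * n)) l1
  obtain ⟨l3, J3, hkl3, hP3, hPk3, hlow3, hJ3⟩ := hT2 (JJ (2 * n)) l2
  obtain ⟨f, hf1, hf2⟩ := exists_lifts J1 hlow1
  obtain ⟨θ, hθ1, hθ2⟩ := exists_theta hS hs_one hs_two hTpos hT hκpos f hf1
  rw [← hN] at hθ1 hθ2
  have hcard : (Fintype.card (Cube (2 * n)) : ℝ) = 2 ^ (2 * n) := by
    rw [Fintype.card_fun, Fintype.card_bool, Fintype.card_fin]
    push_cast
    rfl
  rw [hcard] at hθ1 hθ2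
  let γ : (Cube (2 * n) → 𝕜) →ₗ[𝕜] E :=
    J1.toLinearMap.comp ((sgnL 𝕜 p θ).comp (Um 𝕜 p ξ c₀))
  have hγ : ∀ a, γ a = J1 (sgnL 𝕜 p θ (Um 𝕜 p ξ c₀ a)) := fun a => rfl
  let β : (JJ (2 * n) → 𝕜) →ₗ[𝕜] E := (Λ : 𝕜) • (J2.toLinearMap.comp (toLpL 𝕜 p (JJ (2 * n))) +
    (w : 𝕜) • J3.toLinearMap.comp (toLpL 𝕜 2 (JJ (2 * n))))
  have hβ : ∀ a, β a = (Λ : 𝕜) • (J2 (WithLp.toLp p a) + (w : 𝕜) • J3 (WithLp.toLp 2 a)) :=
    fun a => rfl
  -- the functionals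
  have hΨ : ∀ i a, Psi ξ κ₀ f θ i (γ a) = a i := by
    intro i a
    rw [hγ, Psi, _root_.sum_apply]
    have h1 : ∀ c, (((κ₀ * ξ i c * sg (θ c) : ℝ) : 𝕜) • f c) (J1 (sgnL 𝕜 p θ (Um 𝕜 p ξ c₀ a))) =
        ∑ j, a j * ((κ₀ * c₀ * (ξ i c * ξ j c) : ℝ) : 𝕜) := by
      intro c
      rw [_root_.smul_apply, hf2]
      change ((κ₀ * ξ i c * sg (θ c) : ℝ) : 𝕜) * (((sg (θ c) : ℝ) : 𝕜) *
        ((c₀ : 𝕜) * ∑ j, a j * (ξ j c : 𝕜))) = _
      rw [Finset.mul_sum, Finset.mul_sum, Finset.mul_sum]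
      refine Finset.sum_congr rfl fun j _ => ?_
      have h2 : ((sg (θ c) : ℝ) : 𝕜) * ((sg (θ c) : ℝ) : 𝕜) = 1 := by
        rw [← RCLike.ofReal_mul, sg_mul_self, RCLike.ofReal_one]
      push_cast
      calc (κ₀ : 𝕜) * (ξ i c : 𝕜) * (sg (θ c) : 𝕜) * ((sg (θ c) : 𝕜) * ((c₀ : 𝕜) *
            (a j * (ξ j c : 𝕜)))) = ((sg (θ c) : 𝕜) * (sg (θ c) : 𝕜)) *
              (a j * ((κ₀ : 𝕜) * (c₀ : 𝕜) * ((ξ i c : 𝕜) * (ξ j c : 𝕜)))) := by ring
        _ = _ := by rw [h2, one_mul]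
    rw [Finset.sum_congr rfl fun c _ => h1 c, Finset.sum_comm]
    have h3 : ∀ j, ∑ c, a j * ((κ₀ * c₀ * (ξ i c * ξ j c) : ℝ) : 𝕜) =
        if i = j then a j else 0 := by
      intro j
      rw [← Finset.mul_sum, ← RCLike.ofReal_sum, ← Finset.mul_sum]
      have h4 := sum_pk_mul eF (2 * k) (by omega) x.injective i j
      rw [← hN, ← hM] at h4
      have h5 : ∑ c, ξ i c * ξ j c = if i = j then N * M⁻¹ else 0 := h4
      rw [h5]
      split_ifs with hij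
      · rw [hκc, RCLike.ofReal_one, mul_one]
      · rw [mul_zero, RCLike.ofReal_zero, mul_zero]
    rw [Finset.sum_congr rfl fun j _ => h3 j, Finset.sum_ite_eq]
    simp
  -- positions
  have hPγ : ∀ a, P l1 (γ a) = γ a := fun a => hP1 _
  have hPβ1 : ∀ a, P l1 (β a) = 0 := by
    intro a
    have h1 := hPP l1 l2 (J3 (WithLp.toLp 2 a))
    rw [hPk3, map_zero, min_eq_left hkl2] at h1
    rw [hβ, map_smul, map_add, map_smul, hPk2, ← h1, smul_zero, add_zero, smul_zero]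
  have hup : ∀ v : E, P l1 v = v → P l2 v = v := by
    intro v hv
    rw [← hv, hPP, min_eq_right hkl2]
  have hup2 : ∀ v : E, P l2 v = v → P l3 v = v := by
    intro v hv
    rw [← hv, hPP, min_eq_right hkl3]
  have hdown : ∀ v : E, P l1 v = 0 → P k0 v = 0 := by
    intro v hv
    have h1 := hPP k0 l1 v
    rw [hv, map_zero, min_eq_left hkl1] at h1
    exact h1.symm
  -- norms
  have hwL : ∀ t : ℝ, 0 ≤ t → ‖((t : ℝ) : 𝕜)‖ = t := fun t ht => by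
    rw [RCLike.norm_ofReal, abs_of_nonneg ht]
  set Zn : (JJ (2 * n) → 𝕜) → ℝ := fun a =>
    ‖(WithLp.toLp p a : PiLp p (fun _ : JJ (2 * n) => 𝕜))‖ +
      w * ‖(WithLp.toLp 2 a : PiLp 2 (fun _ : JJ (2 * n) => 𝕜))‖ with hZn
  have hZn0 : ∀ a, 0 ≤ Zn a := fun a => by rw [hZn]; positivity
  have hγn : ∀ a, ‖γ (Pf 𝕜 (2 * n) a)‖ ≤ 2 * C * (Λ * Zn a) := by
    intro a
    rw [hγ]
    refine (J1.le_opNorm _).trans ?_
    rw [norm_sgnL hq0]
    have h1 := norm_Um_le (𝕜 := 𝕜) hS (p := p) hq2 hqk2 (2 * n) (by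
      rw [Fintype.card_fun, Fintype.card_bool, Fintype.card_fin]) (Pf 𝕜 (2 * n) a)
    rw [← hqdef, ← hN, ← hc₀, ← hw, ← PL_eq, ← PL_eq] at h1
    have h2 : ‖PL p 𝕜 (2 * n) (WithLp.toLp p a)‖ ≤
        2 * ‖(WithLp.toLp p a : PiLp p (fun _ : JJ (2 * n) => 𝕜))‖ :=
      (ContinuousLinearMap.le_opNorm _ _).trans (by gcongr; exact norm_PL_le p (2 * n) hr)
    have h3 : ‖PL 2 𝕜 (2 * n) (WithLp.toLp 2 a)‖ ≤
        2 * ‖(WithLp.toLp 2 a : PiLp 2 (fun _ : JJ (2 * n) => 𝕜))‖ :=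
      (ContinuousLinearMap.le_opNorm _ _).trans (by gcongr; exact norm_PL_le 2 (2 * n) hr)
    calc ‖J1‖ * ‖Um 𝕜 p ξ c₀ (Pf 𝕜 (2 * n) a)‖
        ≤ C * (Λ * (‖PL p 𝕜 (2 * n) (WithLp.toLp p a)‖ +
            w * ‖PL 2 𝕜 (2 * n) (WithLp.toLp 2 a)‖)) := by gcongr
      _ ≤ C * (Λ * (2 * ‖(WithLp.toLp p a : PiLp p (fun _ : JJ (2 * n) => 𝕜))‖ +
            w * (2 * ‖(WithLp.toLp 2 a : PiLp 2 (fun _ : JJ (2 * n) => 𝕜))‖))) := by gcongr
      _ = _ := by rw [hZn]; ring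
  have hβn : ∀ a, ‖β a‖ ≤ C * (Λ * Zn a) := by
    intro a
    rw [hβ, norm_smul, hwL Λ hΛpos.le]
    have h1 : ‖J2 (WithLp.toLp p a) + (w : 𝕜) • J3 (WithLp.toLp 2 a)‖ ≤
        C * ‖(WithLp.toLp p a : PiLp p (fun _ : JJ (2 * n) => 𝕜))‖ +
        w * (C * ‖(WithLp.toLp 2 a : PiLp 2 (fun _ : JJ (2 * n) => 𝕜))‖) := by
      refine (norm_add_le _ _).trans (add_le_add ?_ ?_)
      · exact (J2.le_opNorm _).trans (by gcongr)
      · rw [norm_smul, hwL w hwpos.le]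
        gcongr
        exact (J3.le_opNorm _).trans (by gcongr)
    calc Λ * ‖J2 (WithLp.toLp p a) + (w : 𝕜) • J3 (WithLp.toLp 2 a)‖
        ≤ Λ * (C * ‖(WithLp.toLp p a : PiLp p (fun _ : JJ (2 * n) => 𝕜))‖ +
        w * (C * ‖(WithLp.toLp 2 a : PiLp 2 (fun _ : JJ (2 * n) => 𝕜))‖)) := by gcongr
      _ = _ := by rw [hZn]; ring
  have hlow : ∀ a, Λ * Zn a ≤ (1 + 3 * CP) * ‖∑ j, a j • yv (2 * n) γ β j‖ := by
    intro a
    rw [sum_yv]
    set v := γ (Pf 𝕜 (2 * n) a) + β a with hv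
    have e1 : P l1 v = γ (Pf 𝕜 (2 * n) a) := by rw [hv, map_add, hPγ, hPβ1, add_zero]
    have e2 : P l2 v = γ (Pf 𝕜 (2 * n) a) + (Λ : 𝕜) • J2 (WithLp.toLp p a) := by
      rw [hv, map_add, hup _ (hPγ _), hβ, map_smul, map_add, map_smul, hPk3, smul_zero, add_zero,
        hP2]
    have e3 : (Λ : 𝕜) • J2 (WithLp.toLp p a) = P l2 v - P l1 v := by rw [e1, e2]; abel
    have e4 : (Λ : 𝕜) • ((w : 𝕜) • J3 (WithLp.toLp 2 a)) = v - P l2 v := by
      rw [e2, hv, hβ, smul_add]; abel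
    have f1 : Λ * ‖(WithLp.toLp p a : PiLp p (fun _ : JJ (2 * n) => 𝕜))‖ ≤ 2 * CP * ‖v‖ := by
      calc Λ * ‖(WithLp.toLp p a : PiLp p (fun _ : JJ (2 * n) => 𝕜))‖
          ≤ Λ * ‖J2 (WithLp.toLp p a)‖ := by gcongr; exact hlow2 _
        _ = ‖(Λ : 𝕜) • J2 (WithLp.toLp p a)‖ := by rw [norm_smul, hwL Λ hΛpos.le]
        _ = ‖P l2 v - P l1 v‖ := by rw [e3]
        _ ≤ CP * ‖v‖ + CP * ‖v‖ := (norm_sub_le _ _).trans (add_le_add
            (((P l2).le_opNorm v).trans (by gcongr; exact hPC l2))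
            (((P l1).le_opNorm v).trans (by gcongr; exact hPC l1)))
        _ = _ := by ring
    have f2 : Λ * (w * ‖(WithLp.toLp 2 a : PiLp 2 (fun _ : JJ (2 * n) => 𝕜))‖) ≤
        (1 + CP) * ‖v‖ := by
      calc Λ * (w * ‖(WithLp.toLp 2 a : PiLp 2 (fun _ : JJ (2 * n) => 𝕜))‖)
          ≤ Λ * (w * ‖J3 (WithLp.toLp 2 a)‖) := by gcongr; exact hlow3 _
        _ = ‖(Λ : 𝕜) • ((w : 𝕜) • J3 (WithLp.toLp 2 a))‖ := by
            rw [norm_smul, norm_smul, hwL Λ hΛpos.le, hwL w hwpos.le]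
        _ = ‖v - P l2 v‖ := by rw [e4]
        _ ≤ ‖v‖ + CP * ‖v‖ := (norm_sub_le _ _).trans (add_le_add le_rfl
            (((P l2).le_opNorm v).trans (by gcongr; exact hPC l2)))
        _ = _ := by ring
    calc Λ * Zn a = Λ * ‖(WithLp.toLp p a : PiLp p (fun _ : JJ (2 * n) => 𝕜))‖ +
          Λ * (w * ‖(WithLp.toLp 2 a : PiLp 2 (fun _ : JJ (2 * n) => 𝕜))‖) := by rw [hZn]; ring
      _ ≤ 2 * CP * ‖v‖ + (1 + CP) * ‖v‖ := add_le_add f1 f2
      _ = _ := by ring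
  have hrest : ∀ (a : JJ (2 * n) → 𝕜) (t : Finset (JJ (2 * n))),
      Zn (fun j => if j ∈ t then a j else 0) ≤ Zn a := by
    intro a t
    rw [hZn]
    exact add_le_add (norm_restrict_set_le p a t)
      (mul_le_mul_of_nonneg_left (norm_restrict_set_le 2 a t) hwpos.le)
  refine block_nat P _ K k0 l3 (hkl1.trans (hkl2.trans hkl3)) (2 ^ (2 * n)) (by positivity)
    (Fintype.equivFinOfCardEq (card_JJ (2 * n))) (yv (2 * n) γ β) ?_ ?_ ?_ ?_ ?_
  · intro j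
    rw [yv, map_add, hup2 _ (hup _ (hPγ _)), hβ, map_smul, map_add, map_smul, hup2 _ (hP2 _), hP3]
  · intro j
    have h1 : P k0 (γ (Pf 𝕜 (2 * n) (Pi.single j 1))) = 0 := hPk1 _
    rw [yv, map_add, h1, hdown _ (hPβ1 _), add_zero]
  · intro j h0
    have h1 := hlow (Pi.single j 1)
    have h2 : ∑ j', (Pi.single j 1 : JJ (2 * n) → 𝕜) j' • yv (2 * n) γ β j' = yv (2 * n) γ β j := by
      rw [Finset.sum_eq_single j]
      · simp
      · intro b _ hb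
        simp [hb]
      · intro h
        exact absurd (Finset.mem_univ _) h
    rw [h2, h0, norm_zero, mul_zero] at h1
    have h3 : ‖(WithLp.toLp p (Pi.single j (1 : 𝕜)) : PiLp p (fun _ : JJ (2 * n) => 𝕜))‖ = 1 := by
      have := PiLp.norm_single (p := p) (β := fun _ : JJ (2 * n) => 𝕜) j (1 : 𝕜)
      rw [norm_one] at this
      exact this
    have h4 : 1 ≤ Zn (Pi.single j 1) := by
      rw [hZn]
      simp only
      rw [h3]
      have : 0 ≤ w * ‖(WithLp.toLp 2 (Pi.single j (1 : 𝕜)) :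
        PiLp 2 (fun _ : JJ (2 * n) => 𝕜))‖ := by positivity
      linarith
    nlinarith
  · intro a t
    rw [sum_yv_finset]
    have h2 := hγn (fun j => if j ∈ t then a j else 0)
    have h3 := hβn (fun j => if j ∈ t then a j else 0)
    have h4 := hlow a
    have h5 := hrest a t
    calc ‖γ (Pf 𝕜 (2 * n) (fun j => if j ∈ t then a j else 0)) +
          β (fun j => if j ∈ t then a j else 0)‖
        ≤ 2 * C * (Λ * Zn (fun j => if j ∈ t then a j else 0)) +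
          C * (Λ * Zn (fun j => if j ∈ t then a j else 0)) :=
          (norm_add_le _ _).trans (add_le_add h2 h3)
      _ = 3 * C * (Λ * Zn (fun j => if j ∈ t then a j else 0)) := by ring
      _ ≤ 3 * C * (Λ * Zn a) := by gcongr
      _ ≤ 3 * C * ((1 + 3 * CP) * ‖∑ j, a j • yv (2 * n) γ β j‖) := by gcongr
      _ = _ := by ring
  · intro A hA T' hT'
    by_contra hlt
    push Not at hlt
    have hT'K : ‖T'‖ ≤ |K| := hlt.le.trans (le_abs_self K)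
    let S : E →L[𝕜] E := (P l1).comp T'
    have hSn : ‖S‖ ≤ CP * |K| := (ContinuousLinearMap.opNorm_comp_le _ _).trans
      (mul_le_mul (hPC l1) hT'K (norm_nonneg _) hCP0)
    have hkey := fun i' => key_rel (2 * n) γ β γ A S.toLinearMap (fun j => by
      change P l1 (T' (yv (2 * n) γ β j)) = _
      rw [hT']
      split_ifs
      · rw [yv, map_add, hPγ, hPβ1, add_zero]
      · rw [map_zero]) i'
    have hmain := obstruction (p := p) hq0 (2 * n) hr A hA (Psi ξ κ₀ f θ) γ hΨ (S.comp J2)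
      (S.comp J3) Λ w (CP * |K| * C) hΛpos.le hwpos.le
      ((ContinuousLinearMap.opNorm_comp_le _ _).trans (mul_le_mul hSn hJ2 (norm_nonneg _)
        (by positivity)))
      ((ContinuousLinearMap.opNorm_comp_le _ _).trans (mul_le_mul hSn hJ3 (norm_nonneg _)
        (by positivity)))
      (fun i' => by
        rw [← hkey i']
        change _ = S (β (vf 𝕜 (2 * n) i'))
        rw [hβ, map_smul, map_add, map_smul]
        rfl)
      _ _ hθ1 hθ2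
    rw [← hqdef] at hmain
    linarith

end Pool.Agent.H42.KC
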